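import Pool.Agent.W664.Fill.KernV
import Pool.Agent.TH502.FA.N14.Par

/-! # The flux through the boundary, and checks of the tables (generated) -/

namespace Pool.Agent.TH502.FA.N14

open Pool.Agent.W664.Fill Pool.Agent.TH502.FA

theorem flux : fluxB P 14 189763336 = true := by decide +kernel

theorem sym : symB P 14 = true := by decide +kernel

theorem tab : tabB P tbl 16 14 = true := by decide +kernel

end Pool.Agent.TH502.FA.N14
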