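import Pool.Agent.TH502.FA.Good
import Pool.Agent.TH502.FA.N14.C0
import Pool.Agent.TH502.FA.N14.C1
import Pool.Agent.TH502.FA.N14.C2
import Pool.Agent.TH502.FA.N14.C3
import Pool.Agent.TH502.FA.N14.C4
import Pool.Agent.TH502.FA.N14.C5
import Pool.Agent.TH502.FA.N14.C6
import Pool.Agent.TH502.FA.N14.C7
import Pool.Agent.TH502.FA.N14.C8
import Pool.Agent.TH502.FA.N14.C9
import Pool.Agent.TH502.FA.N14.C10
import Pool.Agent.TH502.FA.N14.C11
import Pool.Agent.TH502.FA.N14.C12
import Pool.Agent.TH502.FA.N14.C13
import Pool.Agent.TH502.FA.N14.C14
import Pool.Agent.TH502.FA.N14.C15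
import Pool.Agent.TH502.FA.N14.C16
import Pool.Agent.TH502.FA.N14.C17
import Pool.Agent.TH502.FA.N14.C18
import Pool.Agent.TH502.FA.N14.C19
import Pool.Agent.TH502.FA.N14.C20
import Pool.Agent.TH502.FA.N14.C21
import Pool.Agent.TH502.FA.N14.C22
import Pool.Agent.TH502.FA.N14.C23
import Pool.Agent.TH502.FA.N14.C24
import Pool.Agent.TH502.FA.N14.C25
import Pool.Agent.TH502.FA.N14.C26
import Pool.Agent.TH502.FA.N14.C27
import Pool.Agent.TH502.FA.N14.C28
import Pool.Agent.TH502.FA.N14.C29
import Pool.Agent.TH502.FA.N14.C30
import Pool.Agent.TH502.FA.N14.C31
import Pool.Agent.TH502.FA.N14.C32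
import Pool.Agent.TH502.FA.N14.C33
import Pool.Agent.TH502.FA.N14.C34
import Pool.Agent.TH502.FA.N14.C35
import Pool.Agent.TH502.FA.N14.C36
import Pool.Agent.TH502.FA.N14.C37
import Pool.Agent.TH502.FA.N14.C38
import Pool.Agent.TH502.FA.N14.C39
import Pool.Agent.TH502.FA.N14.C40
import Pool.Agent.TH502.FA.N14.C41
import Pool.Agent.TH502.FA.N14.C42
import Pool.Agent.TH502.FA.N14.C43
import Pool.Agent.TH502.FA.N14.C44
import Pool.Agent.TH502.FA.N14.C45
import Pool.Agent.TH502.FA.N14.C46
import Pool.Agent.TH502.FA.N14.C47
import Pool.Agent.TH502.FA.N14.C48
import Pool.Agent.TH502.FA.N14.C49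
import Pool.Agent.TH502.FA.N14.C50
import Pool.Agent.TH502.FA.N14.C51
import Pool.Agent.TH502.FA.N14.C52
import Pool.Agent.TH502.FA.N14.C53
import Pool.Agent.TH502.FA.N14.C54
import Pool.Agent.TH502.FA.N14.C55
import Pool.Agent.TH502.FA.N14.C56
import Pool.Agent.TH502.FA.N14.C57
import Pool.Agent.TH502.FA.N14.C58
import Pool.Agent.TH502.FA.N14.C59
import Pool.Agent.TH502.FA.N14.C60
import Pool.Agent.TH502.FA.N14.C61
import Pool.Agent.TH502.FA.N14.C62
import Pool.Agent.TH502.FA.N14.C63
import Pool.Agent.TH502.FA.N14.C64
import Pool.Agent.TH502.FA.N14.C65
import Pool.Agent.TH502.FA.N14.C66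
import Pool.Agent.TH502.FA.N14.C67
import Pool.Agent.TH502.FA.N14.C68
import Pool.Agent.TH502.FA.N14.C69
import Pool.Agent.TH502.FA.N14.C70
import Pool.Agent.TH502.FA.N14.C71
import Pool.Agent.TH502.FA.N14.C72
import Pool.Agent.TH502.FA.N14.C73
import Pool.Agent.TH502.FA.N14.C74
import Pool.Agent.TH502.FA.N14.C75
import Pool.Agent.TH502.FA.N14.C76
import Pool.Agent.TH502.FA.N14.C77
import Pool.Agent.TH502.FA.N14.C78
import Pool.Agent.TH502.FA.N14.C79
import Pool.Agent.TH502.FA.N14.C80
import Pool.Agent.TH502.FA.N14.C81
import Pool.Agent.TH502.FA.N14.C82
import Pool.Agent.TH502.FA.N14.C83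
import Pool.Agent.TH502.FA.N14.C84
import Pool.Agent.TH502.FA.N14.C85
import Pool.Agent.TH502.FA.N14.C86
import Pool.Agent.TH502.FA.N14.C87
import Pool.Agent.TH502.FA.N14.C88
import Pool.Agent.TH502.FA.N14.C89
import Pool.Agent.TH502.FA.N14.C90
import Pool.Agent.TH502.FA.N14.C91
import Pool.Agent.TH502.FA.N14.C92
import Pool.Agent.TH502.FA.N14.C93
import Pool.Agent.TH502.FA.N14.C94
import Pool.Agent.TH502.FA.N14.C95
import Pool.Agent.TH502.FA.N14.C96
import Pool.Agent.TH502.FA.N14.C97
import Pool.Agent.TH502.FA.N14.C98
import Pool.Agent.TH502.FA.N14.C99
import Pool.Agent.TH502.FA.N14.C100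
import Pool.Agent.TH502.FA.N14.C101
import Pool.Agent.TH502.FA.N14.C102
import Pool.Agent.TH502.FA.N14.C103
import Pool.Agent.TH502.FA.N14.C104
import Pool.Agent.TH502.FA.N14.C105
import Pool.Agent.TH502.FA.N14.C106
import Pool.Agent.TH502.FA.N14.C107
import Pool.Agent.TH502.FA.N14.C108
import Pool.Agent.TH502.FA.N14.C109
import Pool.Agent.TH502.FA.N14.C110
import Pool.Agent.TH502.FA.N14.C111
import Pool.Agent.TH502.FA.N14.C112

/-! # The tree of prefixes (generated) -/

namespace Pool.Agent.TH502.FA.N14

open Pool.Agent.W664.Fill Pool.Agent.TH502.FA

/-- The check succeeds for all configurations with the given prefix. -/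
abbrev G (M r k x : ℕ) : Prop :=
  Good (fun y L => leafN tbl 16 98 14 29 96 52 16 36 23 400000 y L = true) 14 M r k x

theorem f0 : G 7 13 7 7 := good_node t0
theorem f1 : G 8 9 6 554598 := good_node t1
theorem f2 : G 8 8 6 8873590 := good_node t2
theorem f3 : G 8 8 7 8873591 := good_node t3
theorem f4 : G 8 8 8 8873592 := good_node t4
theorem f5 : G 8 9 7 554599 := good_step (fun _ => f2) f3 (fun _ => f4)
theorem f6 : G 8 10 6 34662 := good_step (fun h => absurd h (by decide)) f1 (fun _ => f5)
theorem f7 : G 8 9 6 554614 := good_node t5
theorem f8 : G 8 8 6 8873846 := good_node t6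
theorem f9 : G 8 8 7 8873847 := good_node t7
theorem f10 : G 8 8 8 8873848 := good_node t8
theorem f11 : G 8 9 7 554615 := good_step (fun _ => f8) f9 (fun _ => f10)
theorem f12 : G 8 9 8 554616 := good_node t9
theorem f13 : G 8 10 7 34663 := good_step (fun _ => f7) f11 (fun _ => f12)
theorem f14 : G 8 11 6 2166 := good_step (fun h => absurd h (by decide)) f6 (fun _ => f13)
theorem f15 : G 8 9 6 554854 := good_node t10
theorem f16 : G 8 8 6 8877686 := good_node t11
theorem f17 : G 8 8 7 8877687 := good_node t12
theorem f18 : G 8 8 8 8877688 := good_node t13
theorem f19 : G 8 9 7 554855 := good_step (fun _ => f16) f17 (fun _ => f18)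
theorem f20 : G 8 10 6 34678 := good_step (fun h => absurd h (by decide)) f15 (fun _ => f19)
theorem f21 : G 8 9 6 554870 := good_node t14
theorem f22 : G 8 8 6 8877942 := good_node t15
theorem f23 : G 8 8 7 8877943 := good_node t16
theorem f24 : G 8 8 8 8877944 := good_node t17
theorem f25 : G 8 9 7 554871 := good_step (fun _ => f22) f23 (fun _ => f24)
theorem f26 : G 8 9 8 554872 := good_node t18
theorem f27 : G 8 10 7 34679 := good_step (fun _ => f21) f25 (fun _ => f26)
theorem f28 : G 8 8 6 8878198 := good_node t19
theorem f29 : G 8 8 7 8878199 := good_node t20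
theorem f30 : G 8 8 8 8878200 := good_node t21
theorem f31 : G 8 9 7 554887 := good_step (fun _ => f28) f29 (fun _ => f30)
theorem f32 : G 8 9 8 554888 := good_node t22
theorem f33 : G 8 10 8 34680 := good_step (fun _ => f31) f32 (fun h => absurd h (by decide))
theorem f34 : G 8 11 7 2167 := good_step (fun _ => f20) f27 (fun _ => f33)
theorem f35 : G 8 9 6 555126 := good_node t23
theorem f36 : G 8 8 6 8882038 := good_node t24
theorem f37 : G 8 8 7 8882039 := good_node t25
theorem f38 : G 8 8 8 8882040 := good_node t26
theorem f39 : G 8 9 7 555127 := good_step (fun _ => f36) f37 (fun _ => f38)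
theorem f40 : G 8 9 8 555128 := good_node t27
theorem f41 : G 8 10 7 34695 := good_step (fun _ => f35) f39 (fun _ => f40)
theorem f42 : G 8 8 6 8882294 := good_node t28
theorem f43 : G 8 8 7 8882295 := good_node t29
theorem f44 : G 8 8 8 8882296 := good_node t30
theorem f45 : G 8 9 7 555143 := good_step (fun _ => f42) f43 (fun _ => f44)
theorem f46 : G 8 9 8 555144 := good_node t31
theorem f47 : G 8 10 8 34696 := good_step (fun _ => f45) f46 (fun h => absurd h (by decide))
theorem f48 : G 8 11 8 2168 := good_step (fun _ => f41) f47 (fun h => absurd h (by decide))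
theorem f49 : G 8 12 7 135 := good_step (fun _ => f14) f34 (fun _ => f48)
theorem f50 : G 8 9 6 558950 := good_node t32
theorem f51 : G 8 8 6 8943222 := good_node t33
theorem f52 : G 8 7 6 143091574 := good_node t34
theorem f53 : G 8 7 7 143091575 := good_node t35
theorem f54 : G 8 7 8 143091576 := good_node t36
theorem f55 : G 8 8 7 8943223 := good_step (fun _ => f52) f53 (fun _ => f54)
theorem f56 : G 8 8 8 8943224 := good_node t37
theorem f57 : G 8 9 7 558951 := good_step (fun _ => f51) f55 (fun _ => f56)
theorem f58 : G 8 10 6 34934 := good_step (fun h => absurd h (by decide)) f50 (fun _ => f57)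
theorem f59 : G 8 8 6 8943462 := good_node t38
theorem f60 : G 8 7 6 143095414 := good_node t39
theorem f61 : G 8 7 7 143095415 := good_node t40
theorem f62 : G 8 7 8 143095416 := good_node t41
theorem f63 : G 8 8 7 8943463 := good_step (fun _ => f60) f61 (fun _ => f62)
theorem f64 : G 8 9 6 558966 := good_step (fun h => absurd h (by decide)) f59 (fun _ => f63)
theorem f65 : G 8 8 6 8943478 := good_node t42
theorem f66 : G 8 7 6 143095670 := good_node t43
theorem f67 : G 8 7 7 143095671 := good_node t44
theorem f68 : G 8 7 8 143095672 := good_node t45
theorem f69 : G 8 8 7 8943479 := good_step (fun _ => f66) f67 (fun _ => f68)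
theorem f70 : G 8 8 8 8943480 := good_node t46
theorem f71 : G 8 9 7 558967 := good_step (fun _ => f65) f69 (fun _ => f70)
theorem f72 : G 8 7 6 143095926 := good_node t47
theorem f73 : G 8 7 7 143095927 := good_node t48
theorem f74 : G 8 7 8 143095928 := good_node t49
theorem f75 : G 8 8 7 8943495 := good_step (fun _ => f72) f73 (fun _ => f74)
theorem f76 : G 8 8 8 8943496 := good_node t50
theorem f77 : G 8 9 8 558968 := good_step (fun _ => f75) f76 (fun h => absurd h (by decide))
theorem f78 : G 8 10 7 34935 := good_step (fun _ => f64) f71 (fun _ => f77)
theorem f79 : G 8 8 6 8943734 := good_node t51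
theorem f80 : G 8 7 6 143099766 := good_node t52
theorem f81 : G 8 7 7 143099767 := good_node t53
theorem f82 : G 8 7 8 143099768 := good_node t54
theorem f83 : G 8 8 7 8943735 := good_step (fun _ => f80) f81 (fun _ => f82)
theorem f84 : G 8 7 7 143099783 := good_node t55
theorem f85 : G 8 7 8 143099784 := good_node t56
theorem f86 : G 8 8 8 8943736 := good_step (fun _ => f84) f85 (fun h => absurd h (by decide))
theorem f87 : G 8 9 7 558983 := good_step (fun _ => f79) f83 (fun _ => f86)
theorem f88 : G 8 7 6 143100022 := good_node t57
theorem f89 : G 8 7 7 143100023 := good_node t58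
theorem f90 : G 8 7 8 143100024 := good_node t59
theorem f91 : G 8 8 7 8943751 := good_step (fun _ => f88) f89 (fun _ => f90)
theorem f92 : G 8 8 8 8943752 := good_node t60
theorem f93 : G 8 9 8 558984 := good_step (fun _ => f91) f92 (fun h => absurd h (by decide))
theorem f94 : G 8 10 8 34936 := good_step (fun _ => f87) f93 (fun h => absurd h (by decide))
theorem f95 : G 8 11 7 2183 := good_step (fun _ => f58) f78 (fun _ => f94)
theorem f96 : G 8 8 6 8947558 := good_node t61
theorem f97 : G 8 7 6 143160950 := good_node t62
theorem f98 : G 8 7 7 143160951 := good_node t63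
theorem f99 : G 8 7 8 143160952 := good_node t64
theorem f100 : G 8 8 7 8947559 := good_step (fun _ => f97) f98 (fun _ => f99)
theorem f101 : G 8 9 6 559222 := good_step (fun h => absurd h (by decide)) f96 (fun _ => f100)
theorem f102 : G 8 7 6 143161190 := good_node t65
theorem f103 : G 8 7 7 143161191 := good_node t66
theorem f104 : G 8 8 6 8947574 := good_step (fun h => absurd h (by decide)) f102 (fun _ => f103)
theorem f105 : G 8 7 6 143161206 := good_node t67
theorem f106 : G 8 7 7 143161207 := good_node t68
theorem f107 : G 8 7 8 143161208 := good_node t69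
theorem f108 : G 8 8 7 8947575 := good_step (fun _ => f105) f106 (fun _ => f107)
theorem f109 : G 8 6 6 2290579574 := good_node t70
theorem f110 : G 8 6 7 2290579575 := good_node t71
theorem f111 : G 8 6 8 2290579576 := good_node t72
theorem f112 : G 8 7 7 143161223 := good_step (fun _ => f109) f110 (fun _ => f111)
theorem f113 : G 8 7 8 143161224 := good_node t73
theorem f114 : G 8 8 8 8947576 := good_step (fun _ => f112) f113 (fun h => absurd h (by decide))
theorem f115 : G 8 9 7 559223 := good_step (fun _ => f104) f108 (fun _ => f114)
theorem f116 : G 8 7 6 143161462 := good_node t74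
theorem f117 : G 8 6 6 2290583414 := good_node t75
theorem f118 : G 8 6 7 2290583415 := good_node t76
theorem f119 : G 8 6 8 2290583416 := good_node t77
theorem f120 : G 8 7 7 143161463 := good_step (fun _ => f117) f118 (fun _ => f119)
theorem f121 : G 8 7 8 143161464 := good_node t78
theorem f122 : G 8 8 7 8947591 := good_step (fun _ => f116) f120 (fun _ => f121)
theorem f123 : G 8 6 6 2290583670 := good_node t79
theorem f124 : G 8 6 7 2290583671 := good_node t80
theorem f125 : G 8 6 8 2290583672 := good_node t81
theorem f126 : G 8 7 7 143161479 := good_step (fun _ => f123) f124 (fun _ => f125)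
theorem f127 : G 8 7 8 143161480 := good_node t82
theorem f128 : G 8 8 8 8947592 := good_step (fun _ => f126) f127 (fun h => absurd h (by decide))
theorem f129 : G 8 9 8 559224 := good_step (fun _ => f122) f128 (fun h => absurd h (by decide))
theorem f130 : G 8 10 7 34951 := good_step (fun _ => f101) f115 (fun _ => f129)
theorem f131 : G 8 7 6 143165286 := good_node t83
theorem f132 : G 8 6 6 2290644598 := good_node t84
theorem f133 : G 8 6 7 2290644599 := good_node t85
theorem f134 : G 8 6 8 2290644600 := good_node t86
theorem f135 : G 8 7 7 143165287 := good_step (fun _ => f132) f133 (fun _ => f134)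
theorem f136 : G 8 8 6 8947830 := good_step (fun h => absurd h (by decide)) f131 (fun _ => f135)
theorem f137 : G 8 7 6 143165302 := good_node t87
theorem f138 : G 8 6 6 2290644854 := good_node t88
theorem f139 : G 8 6 7 2290644855 := good_node t89
theorem f140 : G 8 6 8 2290644856 := good_node t90
theorem f141 : G 8 7 7 143165303 := good_step (fun _ => f138) f139 (fun _ => f140)
theorem f142 : G 8 7 8 143165304 := good_node t91
theorem f143 : G 8 8 7 8947831 := good_step (fun _ => f137) f141 (fun _ => f142)
theorem f144 : G 8 6 6 2290645110 := good_node t92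
theorem f145 : G 8 6 7 2290645111 := good_node t93
theorem f146 : G 8 6 8 2290645112 := good_node t94
theorem f147 : G 8 7 7 143165319 := good_step (fun _ => f144) f145 (fun _ => f146)
theorem f148 : G 8 7 8 143165320 := good_node t95
theorem f149 : G 8 8 8 8947832 := good_step (fun _ => f147) f148 (fun h => absurd h (by decide))
theorem f150 : G 8 9 7 559239 := good_step (fun _ => f136) f143 (fun _ => f149)
theorem f151 : G 8 7 6 143165558 := good_node t96
theorem f152 : G 8 6 6 2290648950 := good_node t97
theorem f153 : G 8 6 7 2290648951 := good_node t98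
theorem f154 : G 8 6 8 2290648952 := good_node t99
theorem f155 : G 8 7 7 143165559 := good_step (fun _ => f152) f153 (fun _ => f154)
theorem f156 : G 8 7 8 143165560 := good_node t100
theorem f157 : G 8 8 7 8947847 := good_step (fun _ => f151) f155 (fun _ => f156)
theorem f158 : G 8 6 6 2290649206 := good_node t101
theorem f159 : G 8 6 7 2290649207 := good_node t102
theorem f160 : G 8 6 8 2290649208 := good_node t103
theorem f161 : G 8 7 7 143165575 := good_step (fun _ => f158) f159 (fun _ => f160)
theorem f162 : G 8 7 8 143165576 := good_node t104
theorem f163 : G 8 8 8 8947848 := good_step (fun _ => f161) f162 (fun h => absurd h (by decide))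
theorem f164 : G 8 9 8 559240 := good_step (fun _ => f157) f163 (fun h => absurd h (by decide))
theorem f165 : G 8 10 8 34952 := good_step (fun _ => f150) f164 (fun h => absurd h (by decide))
theorem f166 : G 8 11 8 2184 := good_step (fun _ => f130) f165 (fun h => absurd h (by decide))
theorem f167 : G 8 12 8 136 := good_step (fun _ => f95) f166 (fun h => absurd h (by decide))
theorem f168 : G 8 13 8 8 := good_step (fun _ => f49) f167 (fun h => absurd h (by decide))
theorem f169 : G 9 8 5 9991765 := good_node t105
theorem f170 : G 9 7 5 159868261 := good_node t106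
theorem f171 : G 9 7 6 159868262 := good_node t107
theorem f172 : G 9 7 7 159868263 := good_node t108
theorem f173 : G 9 8 6 9991766 := good_step (fun _ => f170) f171 (fun _ => f172)
theorem f174 : G 9 9 5 624485 := good_step (fun h => absurd h (by decide)) f169 (fun _ => f173)
theorem f175 : G 9 8 5 9991781 := good_node t109
theorem f176 : G 9 7 5 159868517 := good_node t110
theorem f177 : G 9 7 6 159868518 := good_node t111
theorem f178 : G 9 7 7 159868519 := good_node t112
theorem f179 : G 9 8 6 9991782 := good_step (fun _ => f176) f177 (fun _ => f178)
theorem f180 : G 9 7 6 159868534 := good_node t113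
theorem f181 : G 9 7 7 159868535 := good_node t114
theorem f182 : G 9 7 8 159868536 := good_node t115
theorem f183 : G 9 8 7 9991783 := good_step (fun _ => f180) f181 (fun _ => f182)
theorem f184 : G 9 9 6 624486 := good_step (fun _ => f175) f179 (fun _ => f183)
theorem f185 : G 9 7 5 159868773 := good_node t116
theorem f186 : G 9 7 6 159868774 := good_node t117
theorem f187 : G 9 7 7 159868775 := good_node t118
theorem f188 : G 9 8 6 9991798 := good_step (fun _ => f185) f186 (fun _ => f187)
theorem f189 : G 9 7 6 159868790 := good_node t119
theorem f190 : G 9 7 7 159868791 := good_node t120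
theorem f191 : G 9 7 8 159868792 := good_node t121
theorem f192 : G 9 8 7 9991799 := good_step (fun _ => f189) f190 (fun _ => f191)
theorem f193 : G 9 7 7 159868807 := good_node t122
theorem f194 : G 9 7 8 159868808 := good_node t123
theorem f195 : G 9 7 9 159868809 := good_node t124
theorem f196 : G 9 8 8 9991800 := good_step (fun _ => f193) f194 (fun _ => f195)
theorem f197 : G 9 9 7 624487 := good_step (fun _ => f188) f192 (fun _ => f196)
theorem f198 : G 9 10 6 39030 := good_step (fun _ => f174) f184 (fun _ => f197)
theorem f199 : G 9 8 5 9992037 := good_node t125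
theorem f200 : G 9 7 5 159872613 := good_node t126
theorem f201 : G 9 7 6 159872614 := good_node t127
theorem f202 : G 9 7 7 159872615 := good_node t128
theorem f203 : G 9 8 6 9992038 := good_step (fun _ => f200) f201 (fun _ => f202)
theorem f204 : G 9 7 6 159872630 := good_node t129
theorem f205 : G 9 7 7 159872631 := good_node t130
theorem f206 : G 9 7 8 159872632 := good_node t131
theorem f207 : G 9 8 7 9992039 := good_step (fun _ => f204) f205 (fun _ => f206)
theorem f208 : G 9 9 6 624502 := good_step (fun _ => f199) f203 (fun _ => f207)
theorem f209 : G 9 7 5 159872869 := good_node t132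
theorem f210 : G 9 7 6 159872870 := good_node t133
theorem f211 : G 9 7 7 159872871 := good_node t134
theorem f212 : G 9 8 6 9992054 := good_step (fun _ => f209) f210 (fun _ => f211)
theorem f213 : G 9 7 6 159872886 := good_node t135
theorem f214 : G 9 7 7 159872887 := good_node t136
theorem f215 : G 9 7 8 159872888 := good_node t137
theorem f216 : G 9 8 7 9992055 := good_step (fun _ => f213) f214 (fun _ => f215)
theorem f217 : G 9 7 7 159872903 := good_node t138
theorem f218 : G 9 7 8 159872904 := good_node t139
theorem f219 : G 9 7 9 159872905 := good_node t140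
theorem f220 : G 9 8 8 9992056 := good_step (fun _ => f217) f218 (fun _ => f219)
theorem f221 : G 9 9 7 624503 := good_step (fun _ => f212) f216 (fun _ => f220)
theorem f222 : G 9 7 6 159873142 := good_node t141
theorem f223 : G 9 7 7 159873143 := good_node t142
theorem f224 : G 9 7 8 159873144 := good_node t143
theorem f225 : G 9 8 7 9992071 := good_step (fun _ => f222) f223 (fun _ => f224)
theorem f226 : G 9 7 7 159873159 := good_node t144
theorem f227 : G 9 7 8 159873160 := good_node t145
theorem f228 : G 9 7 9 159873161 := good_node t146
theorem f229 : G 9 8 8 9992072 := good_step (fun _ => f226) f227 (fun _ => f228)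
theorem f230 : G 9 8 9 9992073 := good_node t147
theorem f231 : G 9 9 8 624504 := good_step (fun _ => f225) f229 (fun _ => f230)
theorem f232 : G 9 10 7 39031 := good_step (fun _ => f208) f221 (fun _ => f231)
theorem f233 : G 9 7 5 159876965 := good_node t148
theorem f234 : G 9 7 6 159876966 := good_node t149
theorem f235 : G 9 7 7 159876967 := good_node t150
theorem f236 : G 9 8 6 9992310 := good_step (fun _ => f233) f234 (fun _ => f235)
theorem f237 : G 9 7 6 159876982 := good_node t151
theorem f238 : G 9 7 7 159876983 := good_node t152
theorem f239 : G 9 7 8 159876984 := good_node t153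
theorem f240 : G 9 8 7 9992311 := good_step (fun _ => f237) f238 (fun _ => f239)
theorem f241 : G 9 7 7 159876999 := good_node t154
theorem f242 : G 9 7 8 159877000 := good_node t155
theorem f243 : G 9 7 9 159877001 := good_node t156
theorem f244 : G 9 8 8 9992312 := good_step (fun _ => f241) f242 (fun _ => f243)
theorem f245 : G 9 9 7 624519 := good_step (fun _ => f236) f240 (fun _ => f244)
theorem f246 : G 9 7 6 159877238 := good_node t157
theorem f247 : G 9 7 7 159877239 := good_node t158
theorem f248 : G 9 7 8 159877240 := good_node t159
theorem f249 : G 9 8 7 9992327 := good_step (fun _ => f246) f247 (fun _ => f248)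
theorem f250 : G 9 7 7 159877255 := good_node t160
theorem f251 : G 9 7 8 159877256 := good_node t161
theorem f252 : G 9 7 9 159877257 := good_node t162
theorem f253 : G 9 8 8 9992328 := good_step (fun _ => f250) f251 (fun _ => f252)
theorem f254 : G 9 8 9 9992329 := good_node t163
theorem f255 : G 9 9 8 624520 := good_step (fun _ => f249) f253 (fun _ => f254)
theorem f256 : G 9 7 7 159877511 := good_node t164
theorem f257 : G 9 7 8 159877512 := good_node t165
theorem f258 : G 9 7 9 159877513 := good_node t166
theorem f259 : G 9 8 8 9992344 := good_step (fun _ => f256) f257 (fun _ => f258)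
theorem f260 : G 9 8 9 9992345 := good_node t167
theorem f261 : G 9 9 9 624521 := good_step (fun _ => f259) f260 (fun h => absurd h (by decide))
theorem f262 : G 9 10 8 39032 := good_step (fun _ => f245) f255 (fun _ => f261)
theorem f263 : G 9 11 7 2439 := good_step (fun _ => f198) f232 (fun _ => f262)
theorem f264 : G 9 8 5 9996133 := good_node t168
theorem f265 : G 9 7 5 159938149 := good_node t169
theorem f266 : G 9 7 6 159938150 := good_node t170
theorem f267 : G 9 7 7 159938151 := good_node t171
theorem f268 : G 9 8 6 9996134 := good_step (fun _ => f265) f266 (fun _ => f267)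
theorem f269 : G 9 7 6 159938166 := good_node t172
theorem f270 : G 9 7 7 159938167 := good_node t173
theorem f271 : G 9 7 8 159938168 := good_node t174
theorem f272 : G 9 8 7 9996135 := good_step (fun _ => f269) f270 (fun _ => f271)
theorem f273 : G 9 9 6 624758 := good_step (fun _ => f264) f268 (fun _ => f272)
theorem f274 : G 9 7 5 159938405 := good_node t175
theorem f275 : G 9 7 6 159938406 := good_node t176
theorem f276 : G 9 6 6 2559014518 := good_node t177
theorem f277 : G 9 6 7 2559014519 := good_node t178
theorem f278 : G 9 6 8 2559014520 := good_node t179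
theorem f279 : G 9 7 7 159938407 := good_step (fun _ => f276) f277 (fun _ => f278)
theorem f280 : G 9 8 6 9996150 := good_step (fun _ => f274) f275 (fun _ => f279)
theorem f281 : G 9 7 6 159938422 := good_node t180
theorem f282 : G 9 6 6 2559014774 := good_node t181
theorem f283 : G 9 6 7 2559014775 := good_node t182
theorem f284 : G 9 6 8 2559014776 := good_node t183
theorem f285 : G 9 7 7 159938423 := good_step (fun _ => f282) f283 (fun _ => f284)
theorem f286 : G 9 7 8 159938424 := good_node t184
theorem f287 : G 9 8 7 9996151 := good_step (fun _ => f281) f285 (fun _ => f286)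
theorem f288 : G 9 6 6 2559015030 := good_node t185
theorem f289 : G 9 6 7 2559015031 := good_node t186
theorem f290 : G 9 6 8 2559015032 := good_node t187
theorem f291 : G 9 7 7 159938439 := good_step (fun _ => f288) f289 (fun _ => f290)
theorem f292 : G 9 7 8 159938440 := good_node t188
theorem f293 : G 9 7 9 159938441 := good_node t189
theorem f294 : G 9 8 8 9996152 := good_step (fun _ => f291) f292 (fun _ => f293)
theorem f295 : G 9 9 7 624759 := good_step (fun _ => f280) f287 (fun _ => f294)
theorem f296 : G 9 7 6 159938678 := good_node t190
theorem f297 : G 9 6 6 2559018870 := good_node t191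
theorem f298 : G 9 6 7 2559018871 := good_node t192
theorem f299 : G 9 6 8 2559018872 := good_node t193
theorem f300 : G 9 7 7 159938679 := good_step (fun _ => f297) f298 (fun _ => f299)
theorem f301 : G 9 7 8 159938680 := good_node t194
theorem f302 : G 9 8 7 9996167 := good_step (fun _ => f296) f300 (fun _ => f301)
theorem f303 : G 9 6 6 2559019126 := good_node t195
theorem f304 : G 9 6 7 2559019127 := good_node t196
theorem f305 : G 9 6 8 2559019128 := good_node t197
theorem f306 : G 9 7 7 159938695 := good_step (fun _ => f303) f304 (fun _ => f305)
theorem f307 : G 9 7 8 159938696 := good_node t198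
theorem f308 : G 9 7 9 159938697 := good_node t199
theorem f309 : G 9 8 8 9996168 := good_step (fun _ => f306) f307 (fun _ => f308)
theorem f310 : G 9 8 9 9996169 := good_node t200
theorem f311 : G 9 9 8 624760 := good_step (fun _ => f302) f309 (fun _ => f310)
theorem f312 : G 9 10 7 39047 := good_step (fun _ => f273) f295 (fun _ => f311)
theorem f313 : G 9 7 5 159942501 := good_node t201
theorem f314 : G 9 7 6 159942502 := good_node t202
theorem f315 : G 9 6 6 2559080054 := good_node t203
theorem f316 : G 9 6 7 2559080055 := good_node t204
theorem f317 : G 9 6 8 2559080056 := good_node t205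
theorem f318 : G 9 7 7 159942503 := good_step (fun _ => f315) f316 (fun _ => f317)
theorem f319 : G 9 8 6 9996406 := good_step (fun _ => f313) f314 (fun _ => f318)
theorem f320 : G 9 7 6 159942518 := good_node t206
theorem f321 : G 9 6 6 2559080310 := good_node t207
theorem f322 : G 9 6 7 2559080311 := good_node t208
theorem f323 : G 9 6 8 2559080312 := good_node t209
theorem f324 : G 9 7 7 159942519 := good_step (fun _ => f321) f322 (fun _ => f323)
theorem f325 : G 9 7 8 159942520 := good_node t210
theorem f326 : G 9 8 7 9996407 := good_step (fun _ => f320) f324 (fun _ => f325)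
theorem f327 : G 9 6 6 2559080566 := good_node t211
theorem f328 : G 9 6 7 2559080567 := good_node t212
theorem f329 : G 9 6 8 2559080568 := good_node t213
theorem f330 : G 9 7 7 159942535 := good_step (fun _ => f327) f328 (fun _ => f329)
theorem f331 : G 9 7 8 159942536 := good_node t214
theorem f332 : G 9 7 9 159942537 := good_node t215
theorem f333 : G 9 8 8 9996408 := good_step (fun _ => f330) f331 (fun _ => f332)
theorem f334 : G 9 9 7 624775 := good_step (fun _ => f319) f326 (fun _ => f333)
theorem f335 : G 9 7 6 159942774 := good_node t216
theorem f336 : G 9 6 6 2559084406 := good_node t217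
theorem f337 : G 9 6 7 2559084407 := good_node t218
theorem f338 : G 9 6 8 2559084408 := good_node t219
theorem f339 : G 9 7 7 159942775 := good_step (fun _ => f336) f337 (fun _ => f338)
theorem f340 : G 9 7 8 159942776 := good_node t220
theorem f341 : G 9 8 7 9996423 := good_step (fun _ => f335) f339 (fun _ => f340)
theorem f342 : G 9 6 6 2559084662 := good_node t221
theorem f343 : G 9 6 7 2559084663 := good_node t222
theorem f344 : G 9 6 8 2559084664 := good_node t223
theorem f345 : G 9 7 7 159942791 := good_step (fun _ => f342) f343 (fun _ => f344)
theorem f346 : G 9 7 8 159942792 := good_node t224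
theorem f347 : G 9 7 9 159942793 := good_node t225
theorem f348 : G 9 8 8 9996424 := good_step (fun _ => f345) f346 (fun _ => f347)
theorem f349 : G 9 8 9 9996425 := good_node t226
theorem f350 : G 9 9 8 624776 := good_step (fun _ => f341) f348 (fun _ => f349)
theorem f351 : G 9 6 6 2559088758 := good_node t227
theorem f352 : G 9 6 7 2559088759 := good_node t228
theorem f353 : G 9 6 8 2559088760 := good_node t229
theorem f354 : G 9 7 7 159943047 := good_step (fun _ => f351) f352 (fun _ => f353)
theorem f355 : G 9 7 8 159943048 := good_node t230
theorem f356 : G 9 7 9 159943049 := good_node t231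
theorem f357 : G 9 8 8 9996440 := good_step (fun _ => f354) f355 (fun _ => f356)
theorem f358 : G 9 8 9 9996441 := good_node t232
theorem f359 : G 9 9 9 624777 := good_step (fun _ => f357) f358 (fun h => absurd h (by decide))
theorem f360 : G 9 10 8 39048 := good_step (fun _ => f334) f350 (fun _ => f359)
theorem f361 : G 9 7 6 159946870 := good_node t233
theorem f362 : G 9 6 6 2559149942 := good_node t234
theorem f363 : G 9 6 7 2559149943 := good_node t235
theorem f364 : G 9 6 8 2559149944 := good_node t236
theorem f365 : G 9 7 7 159946871 := good_step (fun _ => f362) f363 (fun _ => f364)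
theorem f366 : G 9 7 8 159946872 := good_node t237
theorem f367 : G 9 8 7 9996679 := good_step (fun _ => f361) f365 (fun _ => f366)
theorem f368 : G 9 6 6 2559150198 := good_node t238
theorem f369 : G 9 6 7 2559150199 := good_node t239
theorem f370 : G 9 6 8 2559150200 := good_node t240
theorem f371 : G 9 7 7 159946887 := good_step (fun _ => f368) f369 (fun _ => f370)
theorem f372 : G 9 7 8 159946888 := good_node t241
theorem f373 : G 9 7 9 159946889 := good_node t242
theorem f374 : G 9 8 8 9996680 := good_step (fun _ => f371) f372 (fun _ => f373)
theorem f375 : G 9 8 9 9996681 := good_node t243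
theorem f376 : G 9 9 8 624792 := good_step (fun _ => f367) f374 (fun _ => f375)
theorem f377 : G 9 7 7 159947143 := good_node t244
theorem f378 : G 9 7 8 159947144 := good_node t245
theorem f379 : G 9 7 9 159947145 := good_node t246
theorem f380 : G 9 8 8 9996696 := good_step (fun _ => f377) f378 (fun _ => f379)
theorem f381 : G 9 8 9 9996697 := good_node t247
theorem f382 : G 9 9 9 624793 := good_step (fun _ => f380) f381 (fun h => absurd h (by decide))
theorem f383 : G 9 10 9 39049 := good_step (fun _ => f376) f382 (fun h => absurd h (by decide))
theorem f384 : G 9 11 8 2440 := good_step (fun _ => f312) f360 (fun _ => f383)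
theorem f385 : G 9 7 5 160008037 := good_node t248
theorem f386 : G 9 7 6 160008038 := good_node t249
theorem f387 : G 9 6 6 2560128630 := good_node t250
theorem f388 : G 9 6 7 2560128631 := good_node t251
theorem f389 : G 9 6 8 2560128632 := good_node t252
theorem f390 : G 9 7 7 160008039 := good_step (fun _ => f387) f388 (fun _ => f389)
theorem f391 : G 9 8 6 10000502 := good_step (fun _ => f385) f386 (fun _ => f390)
theorem f392 : G 9 7 6 160008054 := good_node t253
theorem f393 : G 9 6 6 2560128886 := good_node t254
theorem f394 : G 9 6 7 2560128887 := good_node t255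
theorem f395 : G 9 6 8 2560128888 := good_node t256
theorem f396 : G 9 7 7 160008055 := good_step (fun _ => f393) f394 (fun _ => f395)
theorem f397 : G 9 7 8 160008056 := good_node t257
theorem f398 : G 9 8 7 10000503 := good_step (fun _ => f392) f396 (fun _ => f397)
theorem f399 : G 9 6 6 2560129142 := good_node t258
theorem f400 : G 9 6 7 2560129143 := good_node t259
theorem f401 : G 9 6 8 2560129144 := good_node t260
theorem f402 : G 9 7 7 160008071 := good_step (fun _ => f399) f400 (fun _ => f401)
theorem f403 : G 9 7 8 160008072 := good_node t261
theorem f404 : G 9 7 9 160008073 := good_node t262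
theorem f405 : G 9 8 8 10000504 := good_step (fun _ => f402) f403 (fun _ => f404)
theorem f406 : G 9 9 7 625031 := good_step (fun _ => f391) f398 (fun _ => f405)
theorem f407 : G 9 7 6 160008310 := good_node t263
theorem f408 : G 9 6 6 2560132982 := good_node t264
theorem f409 : G 9 6 7 2560132983 := good_node t265
theorem f410 : G 9 6 8 2560132984 := good_node t266
theorem f411 : G 9 7 7 160008311 := good_step (fun _ => f408) f409 (fun _ => f410)
theorem f412 : G 9 7 8 160008312 := good_node t267
theorem f413 : G 9 8 7 10000519 := good_step (fun _ => f407) f411 (fun _ => f412)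
theorem f414 : G 9 6 6 2560133238 := good_node t268
theorem f415 : G 9 6 7 2560133239 := good_node t269
theorem f416 : G 9 6 8 2560133240 := good_node t270
theorem f417 : G 9 7 7 160008327 := good_step (fun _ => f414) f415 (fun _ => f416)
theorem f418 : G 9 7 8 160008328 := good_node t271
theorem f419 : G 9 7 9 160008329 := good_node t272
theorem f420 : G 9 8 8 10000520 := good_step (fun _ => f417) f418 (fun _ => f419)
theorem f421 : G 9 8 9 10000521 := good_node t273
theorem f422 : G 9 9 8 625032 := good_step (fun _ => f413) f420 (fun _ => f421)
theorem f423 : G 9 6 6 2560137334 := good_node t274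
theorem f424 : G 9 6 7 2560137335 := good_node t275
theorem f425 : G 9 6 8 2560137336 := good_node t276
theorem f426 : G 9 7 7 160008583 := good_step (fun _ => f423) f424 (fun _ => f425)
theorem f427 : G 9 7 8 160008584 := good_node t277
theorem f428 : G 9 7 9 160008585 := good_node t278
theorem f429 : G 9 8 8 10000536 := good_step (fun _ => f426) f427 (fun _ => f428)
theorem f430 : G 9 8 9 10000537 := good_node t279
theorem f431 : G 9 9 9 625033 := good_step (fun _ => f429) f430 (fun h => absurd h (by decide))
theorem f432 : G 9 10 8 39064 := good_step (fun _ => f406) f422 (fun _ => f431)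
theorem f433 : G 9 7 6 160012406 := good_node t280
theorem f434 : G 9 7 7 160012407 := good_node t281
theorem f435 : G 9 7 8 160012408 := good_node t282
theorem f436 : G 9 8 7 10000775 := good_step (fun _ => f433) f434 (fun _ => f435)
theorem f437 : G 9 7 7 160012423 := good_node t283
theorem f438 : G 9 7 8 160012424 := good_node t284
theorem f439 : G 9 7 9 160012425 := good_node t285
theorem f440 : G 9 8 8 10000776 := good_step (fun _ => f437) f438 (fun _ => f439)
theorem f441 : G 9 8 9 10000777 := good_node t286
theorem f442 : G 9 9 8 625048 := good_step (fun _ => f436) f440 (fun _ => f441)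
theorem f443 : G 9 7 7 160012679 := good_node t287
theorem f444 : G 9 7 8 160012680 := good_node t288
theorem f445 : G 9 7 9 160012681 := good_node t289
theorem f446 : G 9 8 8 10000792 := good_step (fun _ => f443) f444 (fun _ => f445)
theorem f447 : G 9 8 9 10000793 := good_node t290
theorem f448 : G 9 9 9 625049 := good_step (fun _ => f446) f447 (fun h => absurd h (by decide))
theorem f449 : G 9 10 9 39065 := good_step (fun _ => f442) f448 (fun h => absurd h (by decide))
theorem f450 : G 9 11 9 2441 := good_step (fun _ => f432) f449 (fun h => absurd h (by decide))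
theorem f451 : G 9 12 8 152 := good_step (fun _ => f263) f384 (fun _ => f450)
theorem f452 : G 9 7 5 160986709 := good_node t291
theorem f453 : G 9 6 5 2575787365 := good_node t292
theorem f454 : G 9 6 6 2575787366 := good_node t293
theorem f455 : G 9 6 7 2575787367 := good_node t294
theorem f456 : G 9 7 6 160986710 := good_step (fun _ => f453) f454 (fun _ => f455)
theorem f457 : G 9 8 5 10061669 := good_step (fun h => absurd h (by decide)) f452 (fun _ => f456)
theorem f458 : G 9 7 5 160986725 := good_node t295
theorem f459 : G 9 6 5 2575787621 := good_node t296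
theorem f460 : G 9 6 6 2575787622 := good_node t297
theorem f461 : G 9 6 7 2575787623 := good_node t298
theorem f462 : G 9 7 6 160986726 := good_step (fun _ => f459) f460 (fun _ => f461)
theorem f463 : G 9 6 6 2575787638 := good_node t299
theorem f464 : G 9 6 7 2575787639 := good_node t300
theorem f465 : G 9 6 8 2575787640 := good_node t301
theorem f466 : G 9 7 7 160986727 := good_step (fun _ => f463) f464 (fun _ => f465)
theorem f467 : G 9 8 6 10061670 := good_step (fun _ => f458) f462 (fun _ => f466)
theorem f468 : G 9 6 5 2575787877 := good_node t302
theorem f469 : G 9 6 6 2575787878 := good_node t303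
theorem f470 : G 9 6 7 2575787879 := good_node t304
theorem f471 : G 9 7 6 160986742 := good_step (fun _ => f468) f469 (fun _ => f470)
theorem f472 : G 9 6 6 2575787894 := good_node t305
theorem f473 : G 9 6 7 2575787895 := good_node t306
theorem f474 : G 9 6 8 2575787896 := good_node t307
theorem f475 : G 9 7 7 160986743 := good_step (fun _ => f472) f473 (fun _ => f474)
theorem f476 : G 9 6 7 2575787911 := good_node t308
theorem f477 : G 9 6 8 2575787912 := good_node t309
theorem f478 : G 9 6 9 2575787913 := good_node t310
theorem f479 : G 9 7 8 160986744 := good_step (fun _ => f476) f477 (fun _ => f478)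
theorem f480 : G 9 8 7 10061671 := good_step (fun _ => f471) f475 (fun _ => f479)
theorem f481 : G 9 9 6 628854 := good_step (fun _ => f457) f467 (fun _ => f480)
theorem f482 : G 9 7 5 160986981 := good_node t311
theorem f483 : G 9 6 5 2575791717 := good_node t312
theorem f484 : G 9 6 6 2575791718 := good_node t313
theorem f485 : G 9 6 7 2575791719 := good_node t314
theorem f486 : G 9 7 6 160986982 := good_step (fun _ => f483) f484 (fun _ => f485)
theorem f487 : G 9 6 6 2575791734 := good_node t315
theorem f488 : G 9 6 7 2575791735 := good_node t316
theorem f489 : G 9 6 8 2575791736 := good_node t317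
theorem f490 : G 9 7 7 160986983 := good_step (fun _ => f487) f488 (fun _ => f489)
theorem f491 : G 9 8 6 10061686 := good_step (fun _ => f482) f486 (fun _ => f490)
theorem f492 : G 9 6 5 2575791973 := good_node t318
theorem f493 : G 9 6 6 2575791974 := good_node t319
theorem f494 : G 9 6 7 2575791975 := good_node t320
theorem f495 : G 9 7 6 160986998 := good_step (fun _ => f492) f493 (fun _ => f494)
theorem f496 : G 9 6 6 2575791990 := good_node t321
theorem f497 : G 9 6 7 2575791991 := good_node t322
theorem f498 : G 9 6 8 2575791992 := good_node t323
theorem f499 : G 9 7 7 160986999 := good_step (fun _ => f496) f497 (fun _ => f498)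
theorem f500 : G 9 6 7 2575792007 := good_node t324
theorem f501 : G 9 6 8 2575792008 := good_node t325
theorem f502 : G 9 6 9 2575792009 := good_node t326
theorem f503 : G 9 7 8 160987000 := good_step (fun _ => f500) f501 (fun _ => f502)
theorem f504 : G 9 8 7 10061687 := good_step (fun _ => f495) f499 (fun _ => f503)
theorem f505 : G 9 6 6 2575792246 := good_node t327
theorem f506 : G 9 6 7 2575792247 := good_node t328
theorem f507 : G 9 6 8 2575792248 := good_node t329
theorem f508 : G 9 7 7 160987015 := good_step (fun _ => f505) f506 (fun _ => f507)
theorem f509 : G 9 6 7 2575792263 := good_node t330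
theorem f510 : G 9 6 8 2575792264 := good_node t331
theorem f511 : G 9 6 9 2575792265 := good_node t332
theorem f512 : G 9 7 8 160987016 := good_step (fun _ => f509) f510 (fun _ => f511)
theorem f513 : G 9 7 9 160987017 := good_node t333
theorem f514 : G 9 8 8 10061688 := good_step (fun _ => f508) f512 (fun _ => f513)
theorem f515 : G 9 9 7 628855 := good_step (fun _ => f491) f504 (fun _ => f514)
theorem f516 : G 9 6 5 2575796069 := good_node t334
theorem f517 : G 9 6 6 2575796070 := good_node t335
theorem f518 : G 9 6 7 2575796071 := good_node t336
theorem f519 : G 9 7 6 160987254 := good_step (fun _ => f516) f517 (fun _ => f518)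
theorem f520 : G 9 6 6 2575796086 := good_node t337
theorem f521 : G 9 6 7 2575796087 := good_node t338
theorem f522 : G 9 6 8 2575796088 := good_node t339
theorem f523 : G 9 7 7 160987255 := good_step (fun _ => f520) f521 (fun _ => f522)
theorem f524 : G 9 6 7 2575796103 := good_node t340
theorem f525 : G 9 6 8 2575796104 := good_node t341
theorem f526 : G 9 6 9 2575796105 := good_node t342
theorem f527 : G 9 7 8 160987256 := good_step (fun _ => f524) f525 (fun _ => f526)
theorem f528 : G 9 8 7 10061703 := good_step (fun _ => f519) f523 (fun _ => f527)
theorem f529 : G 9 6 6 2575796342 := good_node t343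
theorem f530 : G 9 6 7 2575796343 := good_node t344
theorem f531 : G 9 6 8 2575796344 := good_node t345
theorem f532 : G 9 7 7 160987271 := good_step (fun _ => f529) f530 (fun _ => f531)
theorem f533 : G 9 6 7 2575796359 := good_node t346
theorem f534 : G 9 6 8 2575796360 := good_node t347
theorem f535 : G 9 6 9 2575796361 := good_node t348
theorem f536 : G 9 7 8 160987272 := good_step (fun _ => f533) f534 (fun _ => f535)
theorem f537 : G 9 7 9 160987273 := good_node t349
theorem f538 : G 9 8 8 10061704 := good_step (fun _ => f532) f536 (fun _ => f537)
theorem f539 : G 9 6 7 2575796615 := good_node t350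
theorem f540 : G 9 6 8 2575796616 := good_node t351
theorem f541 : G 9 6 9 2575796617 := good_node t352
theorem f542 : G 9 7 8 160987288 := good_step (fun _ => f539) f540 (fun _ => f541)
theorem f543 : G 9 7 9 160987289 := good_node t353
theorem f544 : G 9 8 9 10061705 := good_step (fun _ => f542) f543 (fun h => absurd h (by decide))
theorem f545 : G 9 9 8 628856 := good_step (fun _ => f528) f538 (fun _ => f544)
theorem f546 : G 9 10 7 39303 := good_step (fun _ => f481) f515 (fun _ => f545)
theorem f547 : G 9 7 5 160991077 := good_node t354
theorem f548 : G 9 6 5 2575857253 := good_node t355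
theorem f549 : G 9 6 6 2575857254 := good_node t356
theorem f550 : G 9 6 7 2575857255 := good_node t357
theorem f551 : G 9 7 6 160991078 := good_step (fun _ => f548) f549 (fun _ => f550)
theorem f552 : G 9 6 6 2575857270 := good_node t358
theorem f553 : G 9 6 7 2575857271 := good_node t359
theorem f554 : G 9 6 8 2575857272 := good_node t360
theorem f555 : G 9 7 7 160991079 := good_step (fun _ => f552) f553 (fun _ => f554)
theorem f556 : G 9 8 6 10061942 := good_step (fun _ => f547) f551 (fun _ => f555)
theorem f557 : G 9 6 5 2575857509 := good_node t361
theorem f558 : G 9 6 6 2575857510 := good_node t362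
theorem f559 : G 9 6 7 2575857511 := good_node t363
theorem f560 : G 9 7 6 160991094 := good_step (fun _ => f557) f558 (fun _ => f559)
theorem f561 : G 9 6 6 2575857526 := good_node t364
theorem f562 : G 9 6 7 2575857527 := good_node t365
theorem f563 : G 9 6 8 2575857528 := good_node t366
theorem f564 : G 9 7 7 160991095 := good_step (fun _ => f561) f562 (fun _ => f563)
theorem f565 : G 9 6 7 2575857543 := good_node t367
theorem f566 : G 9 6 8 2575857544 := good_node t368
theorem f567 : G 9 6 9 2575857545 := good_node t369
theorem f568 : G 9 7 8 160991096 := good_step (fun _ => f565) f566 (fun _ => f567)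
theorem f569 : G 9 8 7 10061943 := good_step (fun _ => f560) f564 (fun _ => f568)
theorem f570 : G 9 6 6 2575857782 := good_node t370
theorem f571 : G 9 6 7 2575857783 := good_node t371
theorem f572 : G 9 6 8 2575857784 := good_node t372
theorem f573 : G 9 7 7 160991111 := good_step (fun _ => f570) f571 (fun _ => f572)
theorem f574 : G 9 6 7 2575857799 := good_node t373
theorem f575 : G 9 6 8 2575857800 := good_node t374
theorem f576 : G 9 6 9 2575857801 := good_node t375
theorem f577 : G 9 7 8 160991112 := good_step (fun _ => f574) f575 (fun _ => f576)
theorem f578 : G 9 7 9 160991113 := good_node t376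
theorem f579 : G 9 8 8 10061944 := good_step (fun _ => f573) f577 (fun _ => f578)
theorem f580 : G 9 9 7 628871 := good_step (fun _ => f556) f569 (fun _ => f579)
theorem f581 : G 9 6 5 2575861605 := good_node t377
theorem f582 : G 9 6 6 2575861606 := good_node t378
theorem f583 : G 9 6 7 2575861607 := good_node t379
theorem f584 : G 9 7 6 160991350 := good_step (fun _ => f581) f582 (fun _ => f583)
theorem f585 : G 9 6 6 2575861622 := good_node t380
theorem f586 : G 9 6 7 2575861623 := good_node t381
theorem f587 : G 9 6 8 2575861624 := good_node t382
theorem f588 : G 9 7 7 160991351 := good_step (fun _ => f585) f586 (fun _ => f587)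
theorem f589 : G 9 6 7 2575861639 := good_node t383
theorem f590 : G 9 6 8 2575861640 := good_node t384
theorem f591 : G 9 6 9 2575861641 := good_node t385
theorem f592 : G 9 7 8 160991352 := good_step (fun _ => f589) f590 (fun _ => f591)
theorem f593 : G 9 8 7 10061959 := good_step (fun _ => f584) f588 (fun _ => f592)
theorem f594 : G 9 6 6 2575861878 := good_node t386
theorem f595 : G 9 6 7 2575861879 := good_node t387
theorem f596 : G 9 6 8 2575861880 := good_node t388
theorem f597 : G 9 7 7 160991367 := good_step (fun _ => f594) f595 (fun _ => f596)
theorem f598 : G 9 6 7 2575861895 := good_node t389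
theorem f599 : G 9 6 8 2575861896 := good_node t390
theorem f600 : G 9 6 9 2575861897 := good_node t391
theorem f601 : G 9 7 8 160991368 := good_step (fun _ => f598) f599 (fun _ => f600)
theorem f602 : G 9 7 9 160991369 := good_node t392
theorem f603 : G 9 8 8 10061960 := good_step (fun _ => f597) f601 (fun _ => f602)
theorem f604 : G 9 6 7 2575862151 := good_node t393
theorem f605 : G 9 6 8 2575862152 := good_node t394
theorem f606 : G 9 6 9 2575862153 := good_node t395
theorem f607 : G 9 7 8 160991384 := good_step (fun _ => f604) f605 (fun _ => f606)
theorem f608 : G 9 7 9 160991385 := good_node t396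
theorem f609 : G 9 8 9 10061961 := good_step (fun _ => f607) f608 (fun h => absurd h (by decide))
theorem f610 : G 9 9 8 628872 := good_step (fun _ => f593) f603 (fun _ => f609)
theorem f611 : G 9 6 6 2575865974 := good_node t397
theorem f612 : G 9 6 7 2575865975 := good_node t398
theorem f613 : G 9 6 8 2575865976 := good_node t399
theorem f614 : G 9 7 7 160991623 := good_step (fun _ => f611) f612 (fun _ => f613)
theorem f615 : G 9 6 7 2575865991 := good_node t400
theorem f616 : G 9 6 8 2575865992 := good_node t401
theorem f617 : G 9 6 9 2575865993 := good_node t402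
theorem f618 : G 9 7 8 160991624 := good_step (fun _ => f615) f616 (fun _ => f617)
theorem f619 : G 9 7 9 160991625 := good_node t403
theorem f620 : G 9 8 8 10061976 := good_step (fun _ => f614) f618 (fun _ => f619)
theorem f621 : G 9 8 9 10061977 := good_node t404
theorem f622 : G 9 9 9 628873 := good_step (fun _ => f620) f621 (fun h => absurd h (by decide))
theorem f623 : G 9 10 8 39304 := good_step (fun _ => f580) f610 (fun _ => f622)
theorem f624 : G 9 6 5 2575927141 := good_node t405
theorem f625 : G 9 6 6 2575927142 := good_node t406
theorem f626 : G 9 6 7 2575927143 := good_node t407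
theorem f627 : G 9 7 6 160995446 := good_step (fun _ => f624) f625 (fun _ => f626)
theorem f628 : G 9 6 6 2575927158 := good_node t408
theorem f629 : G 9 6 7 2575927159 := good_node t409
theorem f630 : G 9 6 8 2575927160 := good_node t410
theorem f631 : G 9 7 7 160995447 := good_step (fun _ => f628) f629 (fun _ => f630)
theorem f632 : G 9 6 7 2575927175 := good_node t411
theorem f633 : G 9 6 8 2575927176 := good_node t412
theorem f634 : G 9 6 9 2575927177 := good_node t413
theorem f635 : G 9 7 8 160995448 := good_step (fun _ => f632) f633 (fun _ => f634)
theorem f636 : G 9 8 7 10062215 := good_step (fun _ => f627) f631 (fun _ => f635)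
theorem f637 : G 9 6 6 2575927414 := good_node t414
theorem f638 : G 9 6 7 2575927415 := good_node t415
theorem f639 : G 9 6 8 2575927416 := good_node t416
theorem f640 : G 9 7 7 160995463 := good_step (fun _ => f637) f638 (fun _ => f639)
theorem f641 : G 9 6 7 2575927431 := good_node t417
theorem f642 : G 9 6 8 2575927432 := good_node t418
theorem f643 : G 9 6 9 2575927433 := good_node t419
theorem f644 : G 9 7 8 160995464 := good_step (fun _ => f641) f642 (fun _ => f643)
theorem f645 : G 9 7 9 160995465 := good_node t420
theorem f646 : G 9 8 8 10062216 := good_step (fun _ => f640) f644 (fun _ => f645)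
theorem f647 : G 9 6 7 2575927687 := good_node t421
theorem f648 : G 9 6 8 2575927688 := good_node t422
theorem f649 : G 9 6 9 2575927689 := good_node t423
theorem f650 : G 9 7 8 160995480 := good_step (fun _ => f647) f648 (fun _ => f649)
theorem f651 : G 9 7 9 160995481 := good_node t424
theorem f652 : G 9 8 9 10062217 := good_step (fun _ => f650) f651 (fun h => absurd h (by decide))
theorem f653 : G 9 9 8 628888 := good_step (fun _ => f636) f646 (fun _ => f652)
theorem f654 : G 9 6 6 2575931510 := good_node t425
theorem f655 : G 9 6 7 2575931511 := good_node t426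
theorem f656 : G 9 6 8 2575931512 := good_node t427
theorem f657 : G 9 7 7 160995719 := good_step (fun _ => f654) f655 (fun _ => f656)
theorem f658 : G 9 6 7 2575931527 := good_node t428
theorem f659 : G 9 6 8 2575931528 := good_node t429
theorem f660 : G 9 6 9 2575931529 := good_node t430
theorem f661 : G 9 7 8 160995720 := good_step (fun _ => f658) f659 (fun _ => f660)
theorem f662 : G 9 7 9 160995721 := good_node t431
theorem f663 : G 9 8 8 10062232 := good_step (fun _ => f657) f661 (fun _ => f662)
theorem f664 : G 9 8 9 10062233 := good_node t432
theorem f665 : G 9 9 9 628889 := good_step (fun _ => f663) f664 (fun h => absurd h (by decide))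
theorem f666 : G 9 10 9 39305 := good_step (fun _ => f653) f665 (fun h => absurd h (by decide))
theorem f667 : G 9 11 8 2456 := good_step (fun _ => f546) f623 (fun _ => f666)
theorem f668 : G 9 7 5 161056613 := good_node t433
theorem f669 : G 9 6 5 2576905829 := good_node t434
theorem f670 : G 9 6 6 2576905830 := good_node t435
theorem f671 : G 9 6 7 2576905831 := good_node t436
theorem f672 : G 9 7 6 161056614 := good_step (fun _ => f669) f670 (fun _ => f671)
theorem f673 : G 9 6 6 2576905846 := good_node t437
theorem f674 : G 9 6 7 2576905847 := good_node t438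
theorem f675 : G 9 6 8 2576905848 := good_node t439
theorem f676 : G 9 7 7 161056615 := good_step (fun _ => f673) f674 (fun _ => f675)
theorem f677 : G 9 8 6 10066038 := good_step (fun _ => f668) f672 (fun _ => f676)
theorem f678 : G 9 6 5 2576906085 := good_node t440
theorem f679 : G 9 6 6 2576906086 := good_node t441
theorem f680 : G 9 6 7 2576906087 := good_node t442
theorem f681 : G 9 7 6 161056630 := good_step (fun _ => f678) f679 (fun _ => f680)
theorem f682 : G 9 6 6 2576906102 := good_node t443
theorem f683 : G 9 6 7 2576906103 := good_node t444
theorem f684 : G 9 6 8 2576906104 := good_node t445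
theorem f685 : G 9 7 7 161056631 := good_step (fun _ => f682) f683 (fun _ => f684)
theorem f686 : G 9 6 7 2576906119 := good_node t446
theorem f687 : G 9 6 8 2576906120 := good_node t447
theorem f688 : G 9 6 9 2576906121 := good_node t448
theorem f689 : G 9 7 8 161056632 := good_step (fun _ => f686) f687 (fun _ => f688)
theorem f690 : G 9 8 7 10066039 := good_step (fun _ => f681) f685 (fun _ => f689)
theorem f691 : G 9 6 6 2576906358 := good_node t449
theorem f692 : G 9 6 7 2576906359 := good_node t450
theorem f693 : G 9 6 8 2576906360 := good_node t451
theorem f694 : G 9 7 7 161056647 := good_step (fun _ => f691) f692 (fun _ => f693)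
theorem f695 : G 9 6 7 2576906375 := good_node t452
theorem f696 : G 9 6 8 2576906376 := good_node t453
theorem f697 : G 9 6 9 2576906377 := good_node t454
theorem f698 : G 9 7 8 161056648 := good_step (fun _ => f695) f696 (fun _ => f697)
theorem f699 : G 9 7 9 161056649 := good_node t455
theorem f700 : G 9 8 8 10066040 := good_step (fun _ => f694) f698 (fun _ => f699)
theorem f701 : G 9 9 7 629127 := good_step (fun _ => f677) f690 (fun _ => f700)
theorem f702 : G 9 6 5 2576910181 := good_node t456
theorem f703 : G 9 6 6 2576910182 := good_node t457
theorem f704 : G 9 6 7 2576910183 := good_node t458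
theorem f705 : G 9 7 6 161056886 := good_step (fun _ => f702) f703 (fun _ => f704)
theorem f706 : G 9 6 6 2576910198 := good_node t459
theorem f707 : G 9 6 7 2576910199 := good_node t460
theorem f708 : G 9 6 8 2576910200 := good_node t461
theorem f709 : G 9 7 7 161056887 := good_step (fun _ => f706) f707 (fun _ => f708)
theorem f710 : G 9 6 7 2576910215 := good_node t462
theorem f711 : G 9 6 8 2576910216 := good_node t463
theorem f712 : G 9 6 9 2576910217 := good_node t464
theorem f713 : G 9 7 8 161056888 := good_step (fun _ => f710) f711 (fun _ => f712)
theorem f714 : G 9 8 7 10066055 := good_step (fun _ => f705) f709 (fun _ => f713)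
theorem f715 : G 9 6 6 2576910454 := good_node t465
theorem f716 : G 9 6 7 2576910455 := good_node t466
theorem f717 : G 9 6 8 2576910456 := good_node t467
theorem f718 : G 9 7 7 161056903 := good_step (fun _ => f715) f716 (fun _ => f717)
theorem f719 : G 9 6 7 2576910471 := good_node t468
theorem f720 : G 9 6 8 2576910472 := good_node t469
theorem f721 : G 9 6 9 2576910473 := good_node t470
theorem f722 : G 9 7 8 161056904 := good_step (fun _ => f719) f720 (fun _ => f721)
theorem f723 : G 9 7 9 161056905 := good_node t471
theorem f724 : G 9 8 8 10066056 := good_step (fun _ => f718) f722 (fun _ => f723)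
theorem f725 : G 9 6 7 2576910727 := good_node t472
theorem f726 : G 9 6 8 2576910728 := good_node t473
theorem f727 : G 9 6 9 2576910729 := good_node t474
theorem f728 : G 9 7 8 161056920 := good_step (fun _ => f725) f726 (fun _ => f727)
theorem f729 : G 9 7 9 161056921 := good_node t475
theorem f730 : G 9 8 9 10066057 := good_step (fun _ => f728) f729 (fun h => absurd h (by decide))
theorem f731 : G 9 9 8 629128 := good_step (fun _ => f714) f724 (fun _ => f730)
theorem f732 : G 9 6 6 2576914550 := good_node t476
theorem f733 : G 9 6 7 2576914551 := good_node t477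
theorem f734 : G 9 6 8 2576914552 := good_node t478
theorem f735 : G 9 7 7 161057159 := good_step (fun _ => f732) f733 (fun _ => f734)
theorem f736 : G 9 6 7 2576914567 := good_node t479
theorem f737 : G 9 6 8 2576914568 := good_node t480
theorem f738 : G 9 6 9 2576914569 := good_node t481
theorem f739 : G 9 7 8 161057160 := good_step (fun _ => f736) f737 (fun _ => f738)
theorem f740 : G 9 7 9 161057161 := good_node t482
theorem f741 : G 9 8 8 10066072 := good_step (fun _ => f735) f739 (fun _ => f740)
theorem f742 : G 9 6 7 2576914823 := good_node t483
theorem f743 : G 9 6 8 2576914824 := good_node t484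
theorem f744 : G 9 6 9 2576914825 := good_node t485
theorem f745 : G 9 7 8 161057176 := good_step (fun _ => f742) f743 (fun _ => f744)
theorem f746 : G 9 7 9 161057177 := good_node t486
theorem f747 : G 9 8 9 10066073 := good_step (fun _ => f745) f746 (fun h => absurd h (by decide))
theorem f748 : G 9 9 9 629129 := good_step (fun _ => f741) f747 (fun h => absurd h (by decide))
theorem f749 : G 9 10 8 39320 := good_step (fun _ => f701) f731 (fun _ => f748)
theorem f750 : G 9 6 5 2576975717 := good_node t487
theorem f751 : G 9 6 6 2576975718 := good_node t488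
theorem f752 : G 9 6 7 2576975719 := good_node t489
theorem f753 : G 9 7 6 161060982 := good_step (fun _ => f750) f751 (fun _ => f752)
theorem f754 : G 9 6 6 2576975734 := good_node t490
theorem f755 : G 9 6 7 2576975735 := good_node t491
theorem f756 : G 9 6 8 2576975736 := good_node t492
theorem f757 : G 9 7 7 161060983 := good_step (fun _ => f754) f755 (fun _ => f756)
theorem f758 : G 9 6 7 2576975751 := good_node t493
theorem f759 : G 9 6 8 2576975752 := good_node t494
theorem f760 : G 9 6 9 2576975753 := good_node t495
theorem f761 : G 9 7 8 161060984 := good_step (fun _ => f758) f759 (fun _ => f760)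
theorem f762 : G 9 8 7 10066311 := good_step (fun _ => f753) f757 (fun _ => f761)
theorem f763 : G 9 6 6 2576975990 := good_node t496
theorem f764 : G 9 6 7 2576975991 := good_node t497
theorem f765 : G 9 6 8 2576975992 := good_node t498
theorem f766 : G 9 7 7 161060999 := good_step (fun _ => f763) f764 (fun _ => f765)
theorem f767 : G 9 6 7 2576976007 := good_node t499
theorem f768 : G 9 6 8 2576976008 := good_node t500
theorem f769 : G 9 6 9 2576976009 := good_node t501
theorem f770 : G 9 7 8 161061000 := good_step (fun _ => f767) f768 (fun _ => f769)
theorem f771 : G 9 7 9 161061001 := good_node t502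
theorem f772 : G 9 8 8 10066312 := good_step (fun _ => f766) f770 (fun _ => f771)
theorem f773 : G 9 6 7 2576976263 := good_node t503
theorem f774 : G 9 6 8 2576976264 := good_node t504
theorem f775 : G 9 6 9 2576976265 := good_node t505
theorem f776 : G 9 7 8 161061016 := good_step (fun _ => f773) f774 (fun _ => f775)
theorem f777 : G 9 7 9 161061017 := good_node t506
theorem f778 : G 9 8 9 10066313 := good_step (fun _ => f776) f777 (fun h => absurd h (by decide))
theorem f779 : G 9 9 8 629144 := good_step (fun _ => f762) f772 (fun _ => f778)
theorem f780 : G 9 6 6 2576980086 := good_node t507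
theorem f781 : G 9 6 7 2576980087 := good_node t508
theorem f782 : G 9 6 8 2576980088 := good_node t509
theorem f783 : G 9 7 7 161061255 := good_step (fun _ => f780) f781 (fun _ => f782)
theorem f784 : G 9 6 7 2576980103 := good_node t510
theorem f785 : G 9 6 8 2576980104 := good_node t511
theorem f786 : G 9 6 9 2576980105 := good_node t512
theorem f787 : G 9 7 8 161061256 := good_step (fun _ => f784) f785 (fun _ => f786)
theorem f788 : G 9 7 9 161061257 := good_node t513
theorem f789 : G 9 8 8 10066328 := good_step (fun _ => f783) f787 (fun _ => f788)
theorem f790 : G 9 6 7 2576980359 := good_node t514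
theorem f791 : G 9 6 8 2576980360 := good_node t515
theorem f792 : G 9 6 9 2576980361 := good_node t516
theorem f793 : G 9 7 8 161061272 := good_step (fun _ => f790) f791 (fun _ => f792)
theorem f794 : G 9 7 9 161061273 := good_node t517
theorem f795 : G 9 8 9 10066329 := good_step (fun _ => f793) f794 (fun h => absurd h (by decide))
theorem f796 : G 9 9 9 629145 := good_step (fun _ => f789) f795 (fun h => absurd h (by decide))
theorem f797 : G 9 10 9 39321 := good_step (fun _ => f779) f796 (fun h => absurd h (by decide))
theorem f798 : G 9 11 9 2457 := good_step (fun _ => f749) f797 (fun h => absurd h (by decide))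
theorem f799 : G 9 12 9 153 := good_step (fun _ => f667) f798 (fun h => absurd h (by decide))
theorem f800 : G 9 13 9 9 := good_step (fun _ => f451) f799 (fun h => absurd h (by decide))
theorem f801 : G 10 7 4 177763924 := good_node t518
theorem f802 : G 10 7 5 177763925 := good_node t519
theorem f803 : G 10 7 6 177763926 := good_node t520
theorem f804 : G 10 8 5 11110245 := good_step (fun _ => f801) f802 (fun _ => f803)
theorem f805 : G 10 7 5 177763941 := good_node t521
theorem f806 : G 10 7 6 177763942 := good_node t522
theorem f807 : G 10 7 7 177763943 := good_node t523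
theorem f808 : G 10 8 6 11110246 := good_step (fun _ => f805) f806 (fun _ => f807)
theorem f809 : G 10 7 6 177763958 := good_node t524
theorem f810 : G 10 7 7 177763959 := good_node t525
theorem f811 : G 10 7 8 177763960 := good_node t526
theorem f812 : G 10 8 7 11110247 := good_step (fun _ => f809) f810 (fun _ => f811)
theorem f813 : G 10 9 6 694390 := good_step (fun _ => f804) f808 (fun _ => f812)
theorem f814 : G 10 7 5 177764197 := good_node t527
theorem f815 : G 10 7 6 177764198 := good_node t528
theorem f816 : G 10 7 7 177764199 := good_node t529
theorem f817 : G 10 8 6 11110262 := good_step (fun _ => f814) f815 (fun _ => f816)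
theorem f818 : G 10 7 6 177764214 := good_node t530
theorem f819 : G 10 7 7 177764215 := good_node t531
theorem f820 : G 10 7 8 177764216 := good_node t532
theorem f821 : G 10 8 7 11110263 := good_step (fun _ => f818) f819 (fun _ => f820)
theorem f822 : G 10 7 7 177764231 := good_node t533
theorem f823 : G 10 7 8 177764232 := good_node t534
theorem f824 : G 10 7 9 177764233 := good_node t535
theorem f825 : G 10 8 8 11110264 := good_step (fun _ => f822) f823 (fun _ => f824)
theorem f826 : G 10 9 7 694391 := good_step (fun _ => f817) f821 (fun _ => f825)
theorem f827 : G 10 7 6 177764470 := good_node t536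
theorem f828 : G 10 7 7 177764471 := good_node t537
theorem f829 : G 10 7 8 177764472 := good_node t538
theorem f830 : G 10 8 7 11110279 := good_step (fun _ => f827) f828 (fun _ => f829)
theorem f831 : G 10 7 7 177764487 := good_node t539
theorem f832 : G 10 7 8 177764488 := good_node t540
theorem f833 : G 10 7 9 177764489 := good_node t541
theorem f834 : G 10 8 8 11110280 := good_step (fun _ => f831) f832 (fun _ => f833)
theorem f835 : G 10 7 8 177764504 := good_node t542
theorem f836 : G 10 7 9 177764505 := good_node t543
theorem f837 : G 10 7 10 177764506 := good_node t544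
theorem f838 : G 10 8 9 11110281 := good_step (fun _ => f835) f836 (fun _ => f837)
theorem f839 : G 10 9 8 694392 := good_step (fun _ => f830) f834 (fun _ => f838)
theorem f840 : G 10 10 7 43399 := good_step (fun _ => f813) f826 (fun _ => f839)
theorem f841 : G 10 7 5 177768293 := good_node t545
theorem f842 : G 10 7 6 177768294 := good_node t546
theorem f843 : G 10 7 7 177768295 := good_node t547
theorem f844 : G 10 8 6 11110518 := good_step (fun _ => f841) f842 (fun _ => f843)
theorem f845 : G 10 7 6 177768310 := good_node t548
theorem f846 : G 10 7 7 177768311 := good_node t549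
theorem f847 : G 10 7 8 177768312 := good_node t550
theorem f848 : G 10 8 7 11110519 := good_step (fun _ => f845) f846 (fun _ => f847)
theorem f849 : G 10 7 7 177768327 := good_node t551
theorem f850 : G 10 7 8 177768328 := good_node t552
theorem f851 : G 10 7 9 177768329 := good_node t553
theorem f852 : G 10 8 8 11110520 := good_step (fun _ => f849) f850 (fun _ => f851)
theorem f853 : G 10 9 7 694407 := good_step (fun _ => f844) f848 (fun _ => f852)
theorem f854 : G 10 7 6 177768566 := good_node t554
theorem f855 : G 10 7 7 177768567 := good_node t555
theorem f856 : G 10 7 8 177768568 := good_node t556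
theorem f857 : G 10 8 7 11110535 := good_step (fun _ => f854) f855 (fun _ => f856)
theorem f858 : G 10 7 7 177768583 := good_node t557
theorem f859 : G 10 7 8 177768584 := good_node t558
theorem f860 : G 10 7 9 177768585 := good_node t559
theorem f861 : G 10 8 8 11110536 := good_step (fun _ => f858) f859 (fun _ => f860)
theorem f862 : G 10 7 8 177768600 := good_node t560
theorem f863 : G 10 7 9 177768601 := good_node t561
theorem f864 : G 10 7 10 177768602 := good_node t562
theorem f865 : G 10 8 9 11110537 := good_step (fun _ => f862) f863 (fun _ => f864)
theorem f866 : G 10 9 8 694408 := good_step (fun _ => f857) f861 (fun _ => f865)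
theorem f867 : G 10 7 7 177768839 := good_node t563
theorem f868 : G 10 7 8 177768840 := good_node t564
theorem f869 : G 10 7 9 177768841 := good_node t565
theorem f870 : G 10 8 8 11110552 := good_step (fun _ => f867) f868 (fun _ => f869)
theorem f871 : G 10 7 8 177768856 := good_node t566
theorem f872 : G 10 7 9 177768857 := good_node t567
theorem f873 : G 10 7 10 177768858 := good_node t568
theorem f874 : G 10 8 9 11110553 := good_step (fun _ => f871) f872 (fun _ => f873)
theorem f875 : G 10 8 10 11110554 := good_node t569
theorem f876 : G 10 9 9 694409 := good_step (fun _ => f870) f874 (fun _ => f875)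
theorem f877 : G 10 10 8 43400 := good_step (fun _ => f853) f866 (fun _ => f876)
theorem f878 : G 10 6 5 2844362597 := good_node t570
theorem f879 : G 10 6 6 2844362598 := good_node t571
theorem f880 : G 10 6 7 2844362599 := good_node t572
theorem f881 : G 10 7 6 177772662 := good_step (fun _ => f878) f879 (fun _ => f880)
theorem f882 : G 10 7 7 177772663 := good_node t573
theorem f883 : G 10 7 8 177772664 := good_node t574
theorem f884 : G 10 8 7 11110791 := good_step (fun _ => f881) f882 (fun _ => f883)
theorem f885 : G 10 7 7 177772679 := good_node t575
theorem f886 : G 10 7 8 177772680 := good_node t576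
theorem f887 : G 10 7 9 177772681 := good_node t577
theorem f888 : G 10 8 8 11110792 := good_step (fun _ => f885) f886 (fun _ => f887)
theorem f889 : G 10 7 8 177772696 := good_node t578
theorem f890 : G 10 7 9 177772697 := good_node t579
theorem f891 : G 10 7 10 177772698 := good_node t580
theorem f892 : G 10 8 9 11110793 := good_step (fun _ => f889) f890 (fun _ => f891)
theorem f893 : G 10 9 8 694424 := good_step (fun _ => f884) f888 (fun _ => f892)
theorem f894 : G 10 7 7 177772935 := good_node t581
theorem f895 : G 10 7 8 177772936 := good_node t582
theorem f896 : G 10 7 9 177772937 := good_node t583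
theorem f897 : G 10 8 8 11110808 := good_step (fun _ => f894) f895 (fun _ => f896)
theorem f898 : G 10 7 8 177772952 := good_node t584
theorem f899 : G 10 7 9 177772953 := good_node t585
theorem f900 : G 10 7 10 177772954 := good_node t586
theorem f901 : G 10 8 9 11110809 := good_step (fun _ => f898) f899 (fun _ => f900)
theorem f902 : G 10 8 10 11110810 := good_node t587
theorem f903 : G 10 9 9 694425 := good_step (fun _ => f897) f901 (fun _ => f902)
theorem f904 : G 10 7 8 177773208 := good_node t588
theorem f905 : G 10 7 9 177773209 := good_node t589
theorem f906 : G 10 7 10 177773210 := good_node t590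
theorem f907 : G 10 8 9 11110825 := good_step (fun _ => f904) f905 (fun _ => f906)
theorem f908 : G 10 8 10 11110826 := good_node t591
theorem f909 : G 10 9 10 694426 := good_step (fun _ => f907) f908 (fun h => absurd h (by decide))
theorem f910 : G 10 10 9 43401 := good_step (fun _ => f893) f903 (fun _ => f909)
theorem f911 : G 10 11 8 2712 := good_step (fun _ => f840) f877 (fun _ => f910)
theorem f912 : G 10 7 5 177833829 := good_node t592
theorem f913 : G 10 6 5 2845341285 := good_node t593
theorem f914 : G 10 6 6 2845341286 := good_node t594
theorem f915 : G 10 6 7 2845341287 := good_node t595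
theorem f916 : G 10 7 6 177833830 := good_step (fun _ => f913) f914 (fun _ => f915)
theorem f917 : G 10 7 7 177833831 := good_node t596
theorem f918 : G 10 8 6 11114614 := good_step (fun _ => f912) f916 (fun _ => f917)
theorem f919 : G 10 6 5 2845341541 := good_node t597
theorem f920 : G 10 6 6 2845341542 := good_node t598
theorem f921 : G 10 6 7 2845341543 := good_node t599
theorem f922 : G 10 7 6 177833846 := good_step (fun _ => f919) f920 (fun _ => f921)
theorem f923 : G 10 7 7 177833847 := good_node t600
theorem f924 : G 10 7 8 177833848 := good_node t601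
theorem f925 : G 10 8 7 11114615 := good_step (fun _ => f922) f923 (fun _ => f924)
theorem f926 : G 10 7 7 177833863 := good_node t602
theorem f927 : G 10 7 8 177833864 := good_node t603
theorem f928 : G 10 7 9 177833865 := good_node t604
theorem f929 : G 10 8 8 11114616 := good_step (fun _ => f926) f927 (fun _ => f928)
theorem f930 : G 10 9 7 694663 := good_step (fun _ => f918) f925 (fun _ => f929)
theorem f931 : G 10 6 5 2845345637 := good_node t605
theorem f932 : G 10 6 6 2845345638 := good_node t606
theorem f933 : G 10 6 7 2845345639 := good_node t607
theorem f934 : G 10 7 6 177834102 := good_step (fun _ => f931) f932 (fun _ => f933)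
theorem f935 : G 10 7 7 177834103 := good_node t608
theorem f936 : G 10 7 8 177834104 := good_node t609
theorem f937 : G 10 8 7 11114631 := good_step (fun _ => f934) f935 (fun _ => f936)
theorem f938 : G 10 7 7 177834119 := good_node t610
theorem f939 : G 10 7 8 177834120 := good_node t611
theorem f940 : G 10 7 9 177834121 := good_node t612
theorem f941 : G 10 8 8 11114632 := good_step (fun _ => f938) f939 (fun _ => f940)
theorem f942 : G 10 7 8 177834136 := good_node t613
theorem f943 : G 10 7 9 177834137 := good_node t614
theorem f944 : G 10 7 10 177834138 := good_node t615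
theorem f945 : G 10 8 9 11114633 := good_step (fun _ => f942) f943 (fun _ => f944)
theorem f946 : G 10 9 8 694664 := good_step (fun _ => f937) f941 (fun _ => f945)
theorem f947 : G 10 7 7 177834375 := good_node t616
theorem f948 : G 10 7 8 177834376 := good_node t617
theorem f949 : G 10 7 9 177834377 := good_node t618
theorem f950 : G 10 8 8 11114648 := good_step (fun _ => f947) f948 (fun _ => f949)
theorem f951 : G 10 7 8 177834392 := good_node t619
theorem f952 : G 10 7 9 177834393 := good_node t620
theorem f953 : G 10 7 10 177834394 := good_node t621
theorem f954 : G 10 8 9 11114649 := good_step (fun _ => f951) f952 (fun _ => f953)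
theorem f955 : G 10 8 10 11114650 := good_node t622
theorem f956 : G 10 9 9 694665 := good_step (fun _ => f950) f954 (fun _ => f955)
theorem f957 : G 10 10 8 43416 := good_step (fun _ => f930) f946 (fun _ => f956)
theorem f958 : G 10 6 5 2845411173 := good_node t623
theorem f959 : G 10 6 6 2845411174 := good_node t624
theorem f960 : G 10 6 7 2845411175 := good_node t625
theorem f961 : G 10 7 6 177838198 := good_step (fun _ => f958) f959 (fun _ => f960)
theorem f962 : G 10 7 7 177838199 := good_node t626
theorem f963 : G 10 7 8 177838200 := good_node t627
theorem f964 : G 10 8 7 11114887 := good_step (fun _ => f961) f962 (fun _ => f963)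
theorem f965 : G 10 7 7 177838215 := good_node t628
theorem f966 : G 10 7 8 177838216 := good_node t629
theorem f967 : G 10 7 9 177838217 := good_node t630
theorem f968 : G 10 8 8 11114888 := good_step (fun _ => f965) f966 (fun _ => f967)
theorem f969 : G 10 7 8 177838232 := good_node t631
theorem f970 : G 10 7 9 177838233 := good_node t632
theorem f971 : G 10 7 10 177838234 := good_node t633
theorem f972 : G 10 8 9 11114889 := good_step (fun _ => f969) f970 (fun _ => f971)
theorem f973 : G 10 9 8 694680 := good_step (fun _ => f964) f968 (fun _ => f972)
theorem f974 : G 10 7 7 177838471 := good_node t634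
theorem f975 : G 10 7 8 177838472 := good_node t635
theorem f976 : G 10 7 9 177838473 := good_node t636
theorem f977 : G 10 8 8 11114904 := good_step (fun _ => f974) f975 (fun _ => f976)
theorem f978 : G 10 7 8 177838488 := good_node t637
theorem f979 : G 10 7 9 177838489 := good_node t638
theorem f980 : G 10 7 10 177838490 := good_node t639
theorem f981 : G 10 8 9 11114905 := good_step (fun _ => f978) f979 (fun _ => f980)
theorem f982 : G 10 8 10 11114906 := good_node t640
theorem f983 : G 10 9 9 694681 := good_step (fun _ => f977) f981 (fun _ => f982)
theorem f984 : G 10 7 8 177838744 := good_node t641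
theorem f985 : G 10 7 9 177838745 := good_node t642
theorem f986 : G 10 7 10 177838746 := good_node t643
theorem f987 : G 10 8 9 11114921 := good_step (fun _ => f984) f985 (fun _ => f986)
theorem f988 : G 10 8 10 11114922 := good_node t644
theorem f989 : G 10 9 10 694682 := good_step (fun _ => f987) f988 (fun h => absurd h (by decide))
theorem f990 : G 10 10 9 43417 := good_step (fun _ => f973) f983 (fun _ => f989)
theorem f991 : G 10 7 7 177842567 := good_node t645
theorem f992 : G 10 7 8 177842568 := good_node t646
theorem f993 : G 10 7 9 177842569 := good_node t647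
theorem f994 : G 10 8 8 11115160 := good_step (fun _ => f991) f992 (fun _ => f993)
theorem f995 : G 10 7 8 177842584 := good_node t648
theorem f996 : G 10 7 9 177842585 := good_node t649
theorem f997 : G 10 7 10 177842586 := good_node t650
theorem f998 : G 10 8 9 11115161 := good_step (fun _ => f995) f996 (fun _ => f997)
theorem f999 : G 10 8 10 11115162 := good_node t651
theorem f1000 : G 10 9 9 694697 := good_step (fun _ => f994) f998 (fun _ => f999)
theorem f1001 : G 10 7 8 177842840 := good_node t652
theorem f1002 : G 10 7 9 177842841 := good_node t653
theorem f1003 : G 10 7 10 177842842 := good_node t654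
theorem f1004 : G 10 8 9 11115177 := good_step (fun _ => f1001) f1002 (fun _ => f1003)
theorem f1005 : G 10 8 10 11115178 := good_node t655
theorem f1006 : G 10 9 10 694698 := good_step (fun _ => f1004) f1005 (fun h => absurd h (by decide))
theorem f1007 : G 10 10 10 43418 := good_step (fun _ => f1000) f1006 (fun h => absurd h (by decide))
theorem f1008 : G 10 11 9 2713 := good_step (fun _ => f957) f990 (fun _ => f1007)
theorem f1009 : G 10 6 5 2846459749 := good_node t656
theorem f1010 : G 10 6 6 2846459750 := good_node t657
theorem f1011 : G 10 6 7 2846459751 := good_node t658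
theorem f1012 : G 10 7 6 177903734 := good_step (fun _ => f1009) f1010 (fun _ => f1011)
theorem f1013 : G 10 6 6 2846459766 := good_node t659
theorem f1014 : G 10 6 7 2846459767 := good_node t660
theorem f1015 : G 10 6 8 2846459768 := good_node t661
theorem f1016 : G 10 7 7 177903735 := good_step (fun _ => f1013) f1014 (fun _ => f1015)
theorem f1017 : G 10 7 8 177903736 := good_node t662
theorem f1018 : G 10 8 7 11118983 := good_step (fun _ => f1012) f1016 (fun _ => f1017)
theorem f1019 : G 10 6 6 2846460022 := good_node t663
theorem f1020 : G 10 6 7 2846460023 := good_node t664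
theorem f1021 : G 10 6 8 2846460024 := good_node t665
theorem f1022 : G 10 7 7 177903751 := good_step (fun _ => f1019) f1020 (fun _ => f1021)
theorem f1023 : G 10 7 8 177903752 := good_node t666
theorem f1024 : G 10 7 9 177903753 := good_node t667
theorem f1025 : G 10 8 8 11118984 := good_step (fun _ => f1022) f1023 (fun _ => f1024)
theorem f1026 : G 10 7 8 177903768 := good_node t668
theorem f1027 : G 10 7 9 177903769 := good_node t669
theorem f1028 : G 10 7 10 177903770 := good_node t670
theorem f1029 : G 10 8 9 11118985 := good_step (fun _ => f1026) f1027 (fun _ => f1028)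
theorem f1030 : G 10 9 8 694936 := good_step (fun _ => f1018) f1025 (fun _ => f1029)
theorem f1031 : G 10 6 6 2846464118 := good_node t671
theorem f1032 : G 10 6 7 2846464119 := good_node t672
theorem f1033 : G 10 6 8 2846464120 := good_node t673
theorem f1034 : G 10 7 7 177904007 := good_step (fun _ => f1031) f1032 (fun _ => f1033)
theorem f1035 : G 10 7 8 177904008 := good_node t674
theorem f1036 : G 10 7 9 177904009 := good_node t675
theorem f1037 : G 10 8 8 11119000 := good_step (fun _ => f1034) f1035 (fun _ => f1036)
theorem f1038 : G 10 7 8 177904024 := good_node t676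
theorem f1039 : G 10 7 9 177904025 := good_node t677
theorem f1040 : G 10 7 10 177904026 := good_node t678
theorem f1041 : G 10 8 9 11119001 := good_step (fun _ => f1038) f1039 (fun _ => f1040)
theorem f1042 : G 10 8 10 11119002 := good_node t679
theorem f1043 : G 10 9 9 694937 := good_step (fun _ => f1037) f1041 (fun _ => f1042)
theorem f1044 : G 10 7 8 177904280 := good_node t680
theorem f1045 : G 10 7 9 177904281 := good_node t681
theorem f1046 : G 10 7 10 177904282 := good_node t682
theorem f1047 : G 10 8 9 11119017 := good_step (fun _ => f1044) f1045 (fun _ => f1046)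
theorem f1048 : G 10 8 10 11119018 := good_node t683
theorem f1049 : G 10 9 10 694938 := good_step (fun _ => f1047) f1048 (fun h => absurd h (by decide))
theorem f1050 : G 10 10 9 43433 := good_step (fun _ => f1030) f1043 (fun _ => f1049)
theorem f1051 : G 10 7 7 177908103 := good_node t684
theorem f1052 : G 10 7 8 177908104 := good_node t685
theorem f1053 : G 10 7 9 177908105 := good_node t686
theorem f1054 : G 10 8 8 11119256 := good_step (fun _ => f1051) f1052 (fun _ => f1053)
theorem f1055 : G 10 7 8 177908120 := good_node t687
theorem f1056 : G 10 7 9 177908121 := good_node t688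
theorem f1057 : G 10 7 10 177908122 := good_node t689
theorem f1058 : G 10 8 9 11119257 := good_step (fun _ => f1055) f1056 (fun _ => f1057)
theorem f1059 : G 10 8 10 11119258 := good_node t690
theorem f1060 : G 10 9 9 694953 := good_step (fun _ => f1054) f1058 (fun _ => f1059)
theorem f1061 : G 10 7 8 177908376 := good_node t691
theorem f1062 : G 10 7 9 177908377 := good_node t692
theorem f1063 : G 10 7 10 177908378 := good_node t693
theorem f1064 : G 10 8 9 11119273 := good_step (fun _ => f1061) f1062 (fun _ => f1063)
theorem f1065 : G 10 8 10 11119274 := good_node t694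
theorem f1066 : G 10 9 10 694954 := good_step (fun _ => f1064) f1065 (fun h => absurd h (by decide))
theorem f1067 : G 10 10 10 43434 := good_step (fun _ => f1060) f1066 (fun h => absurd h (by decide))
theorem f1068 : G 10 11 10 2714 := good_step (fun _ => f1050) f1067 (fun h => absurd h (by decide))
theorem f1069 : G 10 12 9 169 := good_step (fun _ => f911) f1008 (fun _ => f1068)
theorem f1070 : G 10 6 4 2862118484 := good_node t695
theorem f1071 : G 10 6 5 2862118485 := good_node t696
theorem f1072 : G 10 6 6 2862118486 := good_node t697
theorem f1073 : G 10 7 5 178882405 := good_step (fun _ => f1070) f1071 (fun _ => f1072)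
theorem f1074 : G 10 6 5 2862118501 := good_node t698
theorem f1075 : G 10 6 6 2862118502 := good_node t699
theorem f1076 : G 10 6 7 2862118503 := good_node t700
theorem f1077 : G 10 7 6 178882406 := good_step (fun _ => f1074) f1075 (fun _ => f1076)
theorem f1078 : G 10 6 6 2862118518 := good_node t701
theorem f1079 : G 10 6 7 2862118519 := good_node t702
theorem f1080 : G 10 6 8 2862118520 := good_node t703
theorem f1081 : G 10 7 7 178882407 := good_step (fun _ => f1078) f1079 (fun _ => f1080)
theorem f1082 : G 10 8 6 11180150 := good_step (fun _ => f1073) f1077 (fun _ => f1081)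
theorem f1083 : G 10 6 5 2862118757 := good_node t704
theorem f1084 : G 10 6 6 2862118758 := good_node t705
theorem f1085 : G 10 6 7 2862118759 := good_node t706
theorem f1086 : G 10 7 6 178882422 := good_step (fun _ => f1083) f1084 (fun _ => f1085)
theorem f1087 : G 10 6 6 2862118774 := good_node t707
theorem f1088 : G 10 6 7 2862118775 := good_node t708
theorem f1089 : G 10 6 8 2862118776 := good_node t709
theorem f1090 : G 10 7 7 178882423 := good_step (fun _ => f1087) f1088 (fun _ => f1089)
theorem f1091 : G 10 7 8 178882424 := good_node t710
theorem f1092 : G 10 8 7 11180151 := good_step (fun _ => f1086) f1090 (fun _ => f1091)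
theorem f1093 : G 10 6 6 2862119030 := good_node t711
theorem f1094 : G 10 6 7 2862119031 := good_node t712
theorem f1095 : G 10 6 8 2862119032 := good_node t713
theorem f1096 : G 10 7 7 178882439 := good_step (fun _ => f1093) f1094 (fun _ => f1095)
theorem f1097 : G 10 7 8 178882440 := good_node t714
theorem f1098 : G 10 7 9 178882441 := good_node t715
theorem f1099 : G 10 8 8 11180152 := good_step (fun _ => f1096) f1097 (fun _ => f1098)
theorem f1100 : G 10 9 7 698759 := good_step (fun _ => f1082) f1092 (fun _ => f1099)
theorem f1101 : G 10 6 5 2862122853 := good_node t716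
theorem f1102 : G 10 6 6 2862122854 := good_node t717
theorem f1103 : G 10 6 7 2862122855 := good_node t718
theorem f1104 : G 10 7 6 178882678 := good_step (fun _ => f1101) f1102 (fun _ => f1103)
theorem f1105 : G 10 6 6 2862122870 := good_node t719
theorem f1106 : G 10 6 7 2862122871 := good_node t720
theorem f1107 : G 10 6 8 2862122872 := good_node t721
theorem f1108 : G 10 7 7 178882679 := good_step (fun _ => f1105) f1106 (fun _ => f1107)
theorem f1109 : G 10 7 8 178882680 := good_node t722
theorem f1110 : G 10 8 7 11180167 := good_step (fun _ => f1104) f1108 (fun _ => f1109)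
theorem f1111 : G 10 6 6 2862123126 := good_node t723
theorem f1112 : G 10 6 7 2862123127 := good_node t724
theorem f1113 : G 10 6 8 2862123128 := good_node t725
theorem f1114 : G 10 7 7 178882695 := good_step (fun _ => f1111) f1112 (fun _ => f1113)
theorem f1115 : G 10 7 8 178882696 := good_node t726
theorem f1116 : G 10 7 9 178882697 := good_node t727
theorem f1117 : G 10 8 8 11180168 := good_step (fun _ => f1114) f1115 (fun _ => f1116)
theorem f1118 : G 10 7 8 178882712 := good_node t728
theorem f1119 : G 10 7 9 178882713 := good_node t729
theorem f1120 : G 10 7 10 178882714 := good_node t730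
theorem f1121 : G 10 8 9 11180169 := good_step (fun _ => f1118) f1119 (fun _ => f1120)
theorem f1122 : G 10 9 8 698760 := good_step (fun _ => f1110) f1117 (fun _ => f1121)
theorem f1123 : G 10 6 6 2862127222 := good_node t731
theorem f1124 : G 10 6 7 2862127223 := good_node t732
theorem f1125 : G 10 6 8 2862127224 := good_node t733
theorem f1126 : G 10 7 7 178882951 := good_step (fun _ => f1123) f1124 (fun _ => f1125)
theorem f1127 : G 10 7 8 178882952 := good_node t734
theorem f1128 : G 10 7 9 178882953 := good_node t735
theorem f1129 : G 10 8 8 11180184 := good_step (fun _ => f1126) f1127 (fun _ => f1128)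
theorem f1130 : G 10 7 8 178882968 := good_node t736
theorem f1131 : G 10 7 9 178882969 := good_node t737
theorem f1132 : G 10 7 10 178882970 := good_node t738
theorem f1133 : G 10 8 9 11180185 := good_step (fun _ => f1130) f1131 (fun _ => f1132)
theorem f1134 : G 10 8 10 11180186 := good_node t739
theorem f1135 : G 10 9 9 698761 := good_step (fun _ => f1129) f1133 (fun _ => f1134)
theorem f1136 : G 10 10 8 43672 := good_step (fun _ => f1100) f1122 (fun _ => f1135)
theorem f1137 : G 10 6 5 2862188389 := good_node t740
theorem f1138 : G 10 6 6 2862188390 := good_node t741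
theorem f1139 : G 10 6 7 2862188391 := good_node t742
theorem f1140 : G 10 7 6 178886774 := good_step (fun _ => f1137) f1138 (fun _ => f1139)
theorem f1141 : G 10 6 6 2862188406 := good_node t743
theorem f1142 : G 10 6 7 2862188407 := good_node t744
theorem f1143 : G 10 6 8 2862188408 := good_node t745
theorem f1144 : G 10 7 7 178886775 := good_step (fun _ => f1141) f1142 (fun _ => f1143)
theorem f1145 : G 10 7 8 178886776 := good_node t746
theorem f1146 : G 10 8 7 11180423 := good_step (fun _ => f1140) f1144 (fun _ => f1145)
theorem f1147 : G 10 6 6 2862188662 := good_node t747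
theorem f1148 : G 10 6 7 2862188663 := good_node t748
theorem f1149 : G 10 6 8 2862188664 := good_node t749
theorem f1150 : G 10 7 7 178886791 := good_step (fun _ => f1147) f1148 (fun _ => f1149)
theorem f1151 : G 10 7 8 178886792 := good_node t750
theorem f1152 : G 10 7 9 178886793 := good_node t751
theorem f1153 : G 10 8 8 11180424 := good_step (fun _ => f1150) f1151 (fun _ => f1152)
theorem f1154 : G 10 7 8 178886808 := good_node t752
theorem f1155 : G 10 7 9 178886809 := good_node t753
theorem f1156 : G 10 7 10 178886810 := good_node t754
theorem f1157 : G 10 8 9 11180425 := good_step (fun _ => f1154) f1155 (fun _ => f1156)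
theorem f1158 : G 10 9 8 698776 := good_step (fun _ => f1146) f1153 (fun _ => f1157)
theorem f1159 : G 10 6 6 2862192758 := good_node t755
theorem f1160 : G 10 6 7 2862192759 := good_node t756
theorem f1161 : G 10 6 8 2862192760 := good_node t757
theorem f1162 : G 10 7 7 178887047 := good_step (fun _ => f1159) f1160 (fun _ => f1161)
theorem f1163 : G 10 7 8 178887048 := good_node t758
theorem f1164 : G 10 7 9 178887049 := good_node t759
theorem f1165 : G 10 8 8 11180440 := good_step (fun _ => f1162) f1163 (fun _ => f1164)
theorem f1166 : G 10 7 8 178887064 := good_node t760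
theorem f1167 : G 10 7 9 178887065 := good_node t761
theorem f1168 : G 10 7 10 178887066 := good_node t762
theorem f1169 : G 10 8 9 11180441 := good_step (fun _ => f1166) f1167 (fun _ => f1168)
theorem f1170 : G 10 8 10 11180442 := good_node t763
theorem f1171 : G 10 9 9 698777 := good_step (fun _ => f1165) f1169 (fun _ => f1170)
theorem f1172 : G 10 7 8 178887320 := good_node t764
theorem f1173 : G 10 7 9 178887321 := good_node t765
theorem f1174 : G 10 7 10 178887322 := good_node t766
theorem f1175 : G 10 8 9 11180457 := good_step (fun _ => f1172) f1173 (fun _ => f1174)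
theorem f1176 : G 10 8 10 11180458 := good_node t767
theorem f1177 : G 10 9 10 698778 := good_step (fun _ => f1175) f1176 (fun h => absurd h (by decide))
theorem f1178 : G 10 10 9 43673 := good_step (fun _ => f1158) f1171 (fun _ => f1177)
theorem f1179 : G 10 6 6 2862258294 := good_node t768
theorem f1180 : G 10 6 7 2862258295 := good_node t769
theorem f1181 : G 10 6 8 2862258296 := good_node t770
theorem f1182 : G 10 7 7 178891143 := good_step (fun _ => f1179) f1180 (fun _ => f1181)
theorem f1183 : G 10 7 8 178891144 := good_node t771
theorem f1184 : G 10 7 9 178891145 := good_node t772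
theorem f1185 : G 10 8 8 11180696 := good_step (fun _ => f1182) f1183 (fun _ => f1184)
theorem f1186 : G 10 7 8 178891160 := good_node t773
theorem f1187 : G 10 7 9 178891161 := good_node t774
theorem f1188 : G 10 7 10 178891162 := good_node t775
theorem f1189 : G 10 8 9 11180697 := good_step (fun _ => f1186) f1187 (fun _ => f1188)
theorem f1190 : G 10 8 10 11180698 := good_node t776
theorem f1191 : G 10 9 9 698793 := good_step (fun _ => f1185) f1189 (fun _ => f1190)
theorem f1192 : G 10 7 8 178891416 := good_node t777
theorem f1193 : G 10 7 9 178891417 := good_node t778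
theorem f1194 : G 10 7 10 178891418 := good_node t779
theorem f1195 : G 10 8 9 11180713 := good_step (fun _ => f1192) f1193 (fun _ => f1194)
theorem f1196 : G 10 8 10 11180714 := good_node t780
theorem f1197 : G 10 9 10 698794 := good_step (fun _ => f1195) f1196 (fun h => absurd h (by decide))
theorem f1198 : G 10 10 10 43674 := good_step (fun _ => f1191) f1197 (fun h => absurd h (by decide))
theorem f1199 : G 10 11 9 2729 := good_step (fun _ => f1136) f1178 (fun _ => f1198)
theorem f1200 : G 10 6 5 2863236965 := good_node t781
theorem f1201 : G 10 6 6 2863236966 := good_node t782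
theorem f1202 : G 10 6 7 2863236967 := good_node t783
theorem f1203 : G 10 7 6 178952310 := good_step (fun _ => f1200) f1201 (fun _ => f1202)
theorem f1204 : G 10 6 6 2863236982 := good_node t784
theorem f1205 : G 10 6 7 2863236983 := good_node t785
theorem f1206 : G 10 6 8 2863236984 := good_node t786
theorem f1207 : G 10 7 7 178952311 := good_step (fun _ => f1204) f1205 (fun _ => f1206)
theorem f1208 : G 10 7 8 178952312 := good_node t787
theorem f1209 : G 10 8 7 11184519 := good_step (fun _ => f1203) f1207 (fun _ => f1208)
theorem f1210 : G 10 6 6 2863237238 := good_node t788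
theorem f1211 : G 10 6 7 2863237239 := good_node t789
theorem f1212 : G 10 6 8 2863237240 := good_node t790
theorem f1213 : G 10 7 7 178952327 := good_step (fun _ => f1210) f1211 (fun _ => f1212)
theorem f1214 : G 10 7 8 178952328 := good_node t791
theorem f1215 : G 10 7 9 178952329 := good_node t792
theorem f1216 : G 10 8 8 11184520 := good_step (fun _ => f1213) f1214 (fun _ => f1215)
theorem f1217 : G 10 7 8 178952344 := good_node t793
theorem f1218 : G 10 7 9 178952345 := good_node t794
theorem f1219 : G 10 7 10 178952346 := good_node t795
theorem f1220 : G 10 8 9 11184521 := good_step (fun _ => f1217) f1218 (fun _ => f1219)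
theorem f1221 : G 10 9 8 699032 := good_step (fun _ => f1209) f1216 (fun _ => f1220)
theorem f1222 : G 10 6 6 2863241334 := good_node t796
theorem f1223 : G 10 6 7 2863241335 := good_node t797
theorem f1224 : G 10 6 8 2863241336 := good_node t798
theorem f1225 : G 10 7 7 178952583 := good_step (fun _ => f1222) f1223 (fun _ => f1224)
theorem f1226 : G 10 7 8 178952584 := good_node t799
theorem f1227 : G 10 7 9 178952585 := good_node t800
theorem f1228 : G 10 8 8 11184536 := good_step (fun _ => f1225) f1226 (fun _ => f1227)
theorem f1229 : G 10 7 8 178952600 := good_node t801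
theorem f1230 : G 10 7 9 178952601 := good_node t802
theorem f1231 : G 10 7 10 178952602 := good_node t803
theorem f1232 : G 10 8 9 11184537 := good_step (fun _ => f1229) f1230 (fun _ => f1231)
theorem f1233 : G 10 8 10 11184538 := good_node t804
theorem f1234 : G 10 9 9 699033 := good_step (fun _ => f1228) f1232 (fun _ => f1233)
theorem f1235 : G 10 7 8 178952856 := good_node t805
theorem f1236 : G 10 7 9 178952857 := good_node t806
theorem f1237 : G 10 7 10 178952858 := good_node t807
theorem f1238 : G 10 8 9 11184553 := good_step (fun _ => f1235) f1236 (fun _ => f1237)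
theorem f1239 : G 10 8 10 11184554 := good_node t808
theorem f1240 : G 10 9 10 699034 := good_step (fun _ => f1238) f1239 (fun h => absurd h (by decide))
theorem f1241 : G 10 10 9 43689 := good_step (fun _ => f1221) f1234 (fun _ => f1240)
theorem f1242 : G 10 6 6 2863306870 := good_node t809
theorem f1243 : G 10 6 7 2863306871 := good_node t810
theorem f1244 : G 10 6 8 2863306872 := good_node t811
theorem f1245 : G 10 7 7 178956679 := good_step (fun _ => f1242) f1243 (fun _ => f1244)
theorem f1246 : G 10 7 8 178956680 := good_node t812
theorem f1247 : G 10 7 9 178956681 := good_node t813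
theorem f1248 : G 10 8 8 11184792 := good_step (fun _ => f1245) f1246 (fun _ => f1247)
theorem f1249 : G 10 7 8 178956696 := good_node t814
theorem f1250 : G 10 7 9 178956697 := good_node t815
theorem f1251 : G 10 7 10 178956698 := good_node t816
theorem f1252 : G 10 8 9 11184793 := good_step (fun _ => f1249) f1250 (fun _ => f1251)
theorem f1253 : G 10 8 10 11184794 := good_node t817
theorem f1254 : G 10 9 9 699049 := good_step (fun _ => f1248) f1252 (fun _ => f1253)
theorem f1255 : G 10 7 8 178956952 := good_node t818
theorem f1256 : G 10 7 9 178956953 := good_node t819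
theorem f1257 : G 10 7 10 178956954 := good_node t820
theorem f1258 : G 10 8 9 11184809 := good_step (fun _ => f1255) f1256 (fun _ => f1257)
theorem f1259 : G 10 8 10 11184810 := good_node t821
theorem f1260 : G 10 9 10 699050 := good_step (fun _ => f1258) f1259 (fun h => absurd h (by decide))
theorem f1261 : G 10 10 10 43690 := good_step (fun _ => f1254) f1260 (fun h => absurd h (by decide))
theorem f1262 : G 10 11 10 2730 := good_step (fun _ => f1241) f1261 (fun h => absurd h (by decide))
theorem f1263 : G 10 12 10 170 := good_step (fun _ => f1199) f1262 (fun h => absurd h (by decide))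
theorem f1264 : G 10 13 10 10 := good_step (fun _ => f1069) f1263 (fun h => absurd h (by decide))
theorem f1265 : G 11 7 5 195659621 := good_node t822
theorem f1266 : G 11 7 6 195659622 := good_node t823
theorem f1267 : G 11 7 7 195659623 := good_node t824
theorem f1268 : G 11 8 6 12228726 := good_step (fun _ => f1265) f1266 (fun _ => f1267)
theorem f1269 : G 11 7 6 195659638 := good_node t825
theorem f1270 : G 11 7 7 195659639 := good_node t826
theorem f1271 : G 11 7 8 195659640 := good_node t827
theorem f1272 : G 11 8 7 12228727 := good_step (fun _ => f1269) f1270 (fun _ => f1271)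
theorem f1273 : G 11 7 7 195659655 := good_node t828
theorem f1274 : G 11 7 8 195659656 := good_node t829
theorem f1275 : G 11 7 9 195659657 := good_node t830
theorem f1276 : G 11 8 8 12228728 := good_step (fun _ => f1273) f1274 (fun _ => f1275)
theorem f1277 : G 11 9 7 764295 := good_step (fun _ => f1268) f1272 (fun _ => f1276)
theorem f1278 : G 11 7 6 195659894 := good_node t831
theorem f1279 : G 11 7 7 195659895 := good_node t832
theorem f1280 : G 11 7 8 195659896 := good_node t833
theorem f1281 : G 11 8 7 12228743 := good_step (fun _ => f1278) f1279 (fun _ => f1280)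
theorem f1282 : G 11 7 7 195659911 := good_node t834
theorem f1283 : G 11 7 8 195659912 := good_node t835
theorem f1284 : G 11 7 9 195659913 := good_node t836
theorem f1285 : G 11 8 8 12228744 := good_step (fun _ => f1282) f1283 (fun _ => f1284)
theorem f1286 : G 11 7 8 195659928 := good_node t837
theorem f1287 : G 11 7 9 195659929 := good_node t838
theorem f1288 : G 11 7 10 195659930 := good_node t839
theorem f1289 : G 11 8 9 12228745 := good_step (fun _ => f1286) f1287 (fun _ => f1288)
theorem f1290 : G 11 9 8 764296 := good_step (fun _ => f1281) f1285 (fun _ => f1289)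
theorem f1291 : G 11 7 7 195660167 := good_node t840
theorem f1292 : G 11 7 8 195660168 := good_node t841
theorem f1293 : G 11 7 9 195660169 := good_node t842
theorem f1294 : G 11 8 8 12228760 := good_step (fun _ => f1291) f1292 (fun _ => f1293)
theorem f1295 : G 11 7 8 195660184 := good_node t843
theorem f1296 : G 11 7 9 195660185 := good_node t844
theorem f1297 : G 11 7 10 195660186 := good_node t845
theorem f1298 : G 11 8 9 12228761 := good_step (fun _ => f1295) f1296 (fun _ => f1297)
theorem f1299 : G 11 7 9 195660201 := good_node t846
theorem f1300 : G 11 7 10 195660202 := good_node t847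
theorem f1301 : G 11 7 11 195660203 := good_node t848
theorem f1302 : G 11 8 10 12228762 := good_step (fun _ => f1299) f1300 (fun _ => f1301)
theorem f1303 : G 11 9 9 764297 := good_step (fun _ => f1294) f1298 (fun _ => f1302)
theorem f1304 : G 11 10 8 47768 := good_step (fun _ => f1277) f1290 (fun _ => f1303)
theorem f1305 : G 11 7 6 195663990 := good_node t849
theorem f1306 : G 11 7 7 195663991 := good_node t850
theorem f1307 : G 11 7 8 195663992 := good_node t851
theorem f1308 : G 11 8 7 12228999 := good_step (fun _ => f1305) f1306 (fun _ => f1307)
theorem f1309 : G 11 7 7 195664007 := good_node t852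
theorem f1310 : G 11 7 8 195664008 := good_node t853
theorem f1311 : G 11 7 9 195664009 := good_node t854
theorem f1312 : G 11 8 8 12229000 := good_step (fun _ => f1309) f1310 (fun _ => f1311)
theorem f1313 : G 11 7 8 195664024 := good_node t855
theorem f1314 : G 11 7 9 195664025 := good_node t856
theorem f1315 : G 11 7 10 195664026 := good_node t857
theorem f1316 : G 11 8 9 12229001 := good_step (fun _ => f1313) f1314 (fun _ => f1315)
theorem f1317 : G 11 9 8 764312 := good_step (fun _ => f1308) f1312 (fun _ => f1316)
theorem f1318 : G 11 7 7 195664263 := good_node t858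
theorem f1319 : G 11 7 8 195664264 := good_node t859
theorem f1320 : G 11 7 9 195664265 := good_node t860
theorem f1321 : G 11 8 8 12229016 := good_step (fun _ => f1318) f1319 (fun _ => f1320)
theorem f1322 : G 11 7 8 195664280 := good_node t861
theorem f1323 : G 11 7 9 195664281 := good_node t862
theorem f1324 : G 11 7 10 195664282 := good_node t863
theorem f1325 : G 11 8 9 12229017 := good_step (fun _ => f1322) f1323 (fun _ => f1324)
theorem f1326 : G 11 7 9 195664297 := good_node t864
theorem f1327 : G 11 7 10 195664298 := good_node t865
theorem f1328 : G 11 7 11 195664299 := good_node t866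
theorem f1329 : G 11 8 10 12229018 := good_step (fun _ => f1326) f1327 (fun _ => f1328)
theorem f1330 : G 11 9 9 764313 := good_step (fun _ => f1321) f1325 (fun _ => f1329)
theorem f1331 : G 11 7 8 195664536 := good_node t867
theorem f1332 : G 11 7 9 195664537 := good_node t868
theorem f1333 : G 11 7 10 195664538 := good_node t869
theorem f1334 : G 11 8 9 12229033 := good_step (fun _ => f1331) f1332 (fun _ => f1333)
theorem f1335 : G 11 7 9 195664553 := good_node t870
theorem f1336 : G 11 7 10 195664554 := good_node t871
theorem f1337 : G 11 7 11 195664555 := good_node t872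
theorem f1338 : G 11 8 10 12229034 := good_step (fun _ => f1335) f1336 (fun _ => f1337)
theorem f1339 : G 11 8 11 12229035 := good_node t873
theorem f1340 : G 11 9 10 764314 := good_step (fun _ => f1334) f1338 (fun _ => f1339)
theorem f1341 : G 11 10 9 47769 := good_step (fun _ => f1317) f1330 (fun _ => f1340)
theorem f1342 : G 11 7 7 195668359 := good_node t874
theorem f1343 : G 11 7 8 195668360 := good_node t875
theorem f1344 : G 11 7 9 195668361 := good_node t876
theorem f1345 : G 11 8 8 12229272 := good_step (fun _ => f1342) f1343 (fun _ => f1344)
theorem f1346 : G 11 7 8 195668376 := good_node t877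
theorem f1347 : G 11 7 9 195668377 := good_node t878
theorem f1348 : G 11 7 10 195668378 := good_node t879
theorem f1349 : G 11 8 9 12229273 := good_step (fun _ => f1346) f1347 (fun _ => f1348)
theorem f1350 : G 11 7 9 195668393 := good_node t880
theorem f1351 : G 11 7 10 195668394 := good_node t881
theorem f1352 : G 11 7 11 195668395 := good_node t882
theorem f1353 : G 11 8 10 12229274 := good_step (fun _ => f1350) f1351 (fun _ => f1352)
theorem f1354 : G 11 9 9 764329 := good_step (fun _ => f1345) f1349 (fun _ => f1353)
theorem f1355 : G 11 7 8 195668632 := good_node t883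
theorem f1356 : G 11 7 9 195668633 := good_node t884
theorem f1357 : G 11 7 10 195668634 := good_node t885
theorem f1358 : G 11 8 9 12229289 := good_step (fun _ => f1355) f1356 (fun _ => f1357)
theorem f1359 : G 11 7 9 195668649 := good_node t886
theorem f1360 : G 11 7 10 195668650 := good_node t887
theorem f1361 : G 11 7 11 195668651 := good_node t888
theorem f1362 : G 11 8 10 12229290 := good_step (fun _ => f1359) f1360 (fun _ => f1361)
theorem f1363 : G 11 8 11 12229291 := good_node t889
theorem f1364 : G 11 9 10 764330 := good_step (fun _ => f1358) f1362 (fun _ => f1363)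
theorem f1365 : G 11 7 9 195668905 := good_node t890
theorem f1366 : G 11 7 10 195668906 := good_node t891
theorem f1367 : G 11 7 11 195668907 := good_node t892
theorem f1368 : G 11 8 10 12229306 := good_step (fun _ => f1365) f1366 (fun _ => f1367)
theorem f1369 : G 11 8 11 12229307 := good_node t893
theorem f1370 : G 11 9 11 764331 := good_step (fun _ => f1368) f1369 (fun h => absurd h (by decide))
theorem f1371 : G 11 10 10 47770 := good_step (fun _ => f1354) f1364 (fun _ => f1370)
theorem f1372 : G 11 11 9 2985 := good_step (fun _ => f1304) f1341 (fun _ => f1371)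
theorem f1373 : G 11 7 6 195729526 := good_node t894
theorem f1374 : G 11 7 7 195729527 := good_node t895
theorem f1375 : G 11 7 8 195729528 := good_node t896
theorem f1376 : G 11 8 7 12233095 := good_step (fun _ => f1373) f1374 (fun _ => f1375)
theorem f1377 : G 11 7 7 195729543 := good_node t897
theorem f1378 : G 11 7 8 195729544 := good_node t898
theorem f1379 : G 11 7 9 195729545 := good_node t899
theorem f1380 : G 11 8 8 12233096 := good_step (fun _ => f1377) f1378 (fun _ => f1379)
theorem f1381 : G 11 7 8 195729560 := good_node t900
theorem f1382 : G 11 7 9 195729561 := good_node t901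
theorem f1383 : G 11 7 10 195729562 := good_node t902
theorem f1384 : G 11 8 9 12233097 := good_step (fun _ => f1381) f1382 (fun _ => f1383)
theorem f1385 : G 11 9 8 764568 := good_step (fun _ => f1376) f1380 (fun _ => f1384)
theorem f1386 : G 11 7 7 195729799 := good_node t903
theorem f1387 : G 11 7 8 195729800 := good_node t904
theorem f1388 : G 11 7 9 195729801 := good_node t905
theorem f1389 : G 11 8 8 12233112 := good_step (fun _ => f1386) f1387 (fun _ => f1388)
theorem f1390 : G 11 7 8 195729816 := good_node t906
theorem f1391 : G 11 7 9 195729817 := good_node t907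
theorem f1392 : G 11 7 10 195729818 := good_node t908
theorem f1393 : G 11 8 9 12233113 := good_step (fun _ => f1390) f1391 (fun _ => f1392)
theorem f1394 : G 11 7 9 195729833 := good_node t909
theorem f1395 : G 11 7 10 195729834 := good_node t910
theorem f1396 : G 11 7 11 195729835 := good_node t911
theorem f1397 : G 11 8 10 12233114 := good_step (fun _ => f1394) f1395 (fun _ => f1396)
theorem f1398 : G 11 9 9 764569 := good_step (fun _ => f1389) f1393 (fun _ => f1397)
theorem f1399 : G 11 7 8 195730072 := good_node t912
theorem f1400 : G 11 7 9 195730073 := good_node t913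
theorem f1401 : G 11 7 10 195730074 := good_node t914
theorem f1402 : G 11 8 9 12233129 := good_step (fun _ => f1399) f1400 (fun _ => f1401)
theorem f1403 : G 11 7 9 195730089 := good_node t915
theorem f1404 : G 11 7 10 195730090 := good_node t916
theorem f1405 : G 11 7 11 195730091 := good_node t917
theorem f1406 : G 11 8 10 12233130 := good_step (fun _ => f1403) f1404 (fun _ => f1405)
theorem f1407 : G 11 8 11 12233131 := good_node t918
theorem f1408 : G 11 9 10 764570 := good_step (fun _ => f1402) f1406 (fun _ => f1407)
theorem f1409 : G 11 10 9 47785 := good_step (fun _ => f1385) f1398 (fun _ => f1408)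
theorem f1410 : G 11 7 7 195733895 := good_node t919
theorem f1411 : G 11 7 8 195733896 := good_node t920
theorem f1412 : G 11 7 9 195733897 := good_node t921
theorem f1413 : G 11 8 8 12233368 := good_step (fun _ => f1410) f1411 (fun _ => f1412)
theorem f1414 : G 11 7 8 195733912 := good_node t922
theorem f1415 : G 11 7 9 195733913 := good_node t923
theorem f1416 : G 11 7 10 195733914 := good_node t924
theorem f1417 : G 11 8 9 12233369 := good_step (fun _ => f1414) f1415 (fun _ => f1416)
theorem f1418 : G 11 7 9 195733929 := good_node t925
theorem f1419 : G 11 7 10 195733930 := good_node t926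
theorem f1420 : G 11 7 11 195733931 := good_node t927
theorem f1421 : G 11 8 10 12233370 := good_step (fun _ => f1418) f1419 (fun _ => f1420)
theorem f1422 : G 11 9 9 764585 := good_step (fun _ => f1413) f1417 (fun _ => f1421)
theorem f1423 : G 11 7 8 195734168 := good_node t928
theorem f1424 : G 11 7 9 195734169 := good_node t929
theorem f1425 : G 11 7 10 195734170 := good_node t930
theorem f1426 : G 11 8 9 12233385 := good_step (fun _ => f1423) f1424 (fun _ => f1425)
theorem f1427 : G 11 7 9 195734185 := good_node t931
theorem f1428 : G 11 7 10 195734186 := good_node t932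
theorem f1429 : G 11 7 11 195734187 := good_node t933
theorem f1430 : G 11 8 10 12233386 := good_step (fun _ => f1427) f1428 (fun _ => f1429)
theorem f1431 : G 11 8 11 12233387 := good_node t934
theorem f1432 : G 11 9 10 764586 := good_step (fun _ => f1426) f1430 (fun _ => f1431)
theorem f1433 : G 11 7 9 195734441 := good_node t935
theorem f1434 : G 11 7 10 195734442 := good_node t936
theorem f1435 : G 11 7 11 195734443 := good_node t937
theorem f1436 : G 11 8 10 12233402 := good_step (fun _ => f1433) f1434 (fun _ => f1435)
theorem f1437 : G 11 8 11 12233403 := good_node t938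
theorem f1438 : G 11 9 11 764587 := good_step (fun _ => f1436) f1437 (fun h => absurd h (by decide))
theorem f1439 : G 11 10 10 47786 := good_step (fun _ => f1422) f1432 (fun _ => f1438)
theorem f1440 : G 11 7 8 195738264 := good_node t939
theorem f1441 : G 11 7 9 195738265 := good_node t940
theorem f1442 : G 11 7 10 195738266 := good_node t941
theorem f1443 : G 11 8 9 12233641 := good_step (fun _ => f1440) f1441 (fun _ => f1442)
theorem f1444 : G 11 7 9 195738281 := good_node t942
theorem f1445 : G 11 7 10 195738282 := good_node t943
theorem f1446 : G 11 7 11 195738283 := good_node t944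
theorem f1447 : G 11 8 10 12233642 := good_step (fun _ => f1444) f1445 (fun _ => f1446)
theorem f1448 : G 11 8 11 12233643 := good_node t945
theorem f1449 : G 11 9 10 764602 := good_step (fun _ => f1443) f1447 (fun _ => f1448)
theorem f1450 : G 11 7 9 195738537 := good_node t946
theorem f1451 : G 11 7 10 195738538 := good_node t947
theorem f1452 : G 11 7 11 195738539 := good_node t948
theorem f1453 : G 11 8 10 12233658 := good_step (fun _ => f1450) f1451 (fun _ => f1452)
theorem f1454 : G 11 8 11 12233659 := good_node t949
theorem f1455 : G 11 9 11 764603 := good_step (fun _ => f1453) f1454 (fun h => absurd h (by decide))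
theorem f1456 : G 11 10 11 47787 := good_step (fun _ => f1449) f1455 (fun h => absurd h (by decide))
theorem f1457 : G 11 11 10 2986 := good_step (fun _ => f1409) f1439 (fun _ => f1456)
theorem f1458 : G 11 7 7 195799431 := good_node t950
theorem f1459 : G 11 7 8 195799432 := good_node t951
theorem f1460 : G 11 7 9 195799433 := good_node t952
theorem f1461 : G 11 8 8 12237464 := good_step (fun _ => f1458) f1459 (fun _ => f1460)
theorem f1462 : G 11 7 8 195799448 := good_node t953
theorem f1463 : G 11 7 9 195799449 := good_node t954
theorem f1464 : G 11 7 10 195799450 := good_node t955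
theorem f1465 : G 11 8 9 12237465 := good_step (fun _ => f1462) f1463 (fun _ => f1464)
theorem f1466 : G 11 7 9 195799465 := good_node t956
theorem f1467 : G 11 7 10 195799466 := good_node t957
theorem f1468 : G 11 7 11 195799467 := good_node t958
theorem f1469 : G 11 8 10 12237466 := good_step (fun _ => f1466) f1467 (fun _ => f1468)
theorem f1470 : G 11 9 9 764841 := good_step (fun _ => f1461) f1465 (fun _ => f1469)
theorem f1471 : G 11 7 8 195799704 := good_node t959
theorem f1472 : G 11 7 9 195799705 := good_node t960
theorem f1473 : G 11 7 10 195799706 := good_node t961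
theorem f1474 : G 11 8 9 12237481 := good_step (fun _ => f1471) f1472 (fun _ => f1473)
theorem f1475 : G 11 7 9 195799721 := good_node t962
theorem f1476 : G 11 7 10 195799722 := good_node t963
theorem f1477 : G 11 7 11 195799723 := good_node t964
theorem f1478 : G 11 8 10 12237482 := good_step (fun _ => f1475) f1476 (fun _ => f1477)
theorem f1479 : G 11 8 11 12237483 := good_node t965
theorem f1480 : G 11 9 10 764842 := good_step (fun _ => f1474) f1478 (fun _ => f1479)
theorem f1481 : G 11 7 9 195799977 := good_node t966
theorem f1482 : G 11 7 10 195799978 := good_node t967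
theorem f1483 : G 11 7 11 195799979 := good_node t968
theorem f1484 : G 11 8 10 12237498 := good_step (fun _ => f1481) f1482 (fun _ => f1483)
theorem f1485 : G 11 8 11 12237499 := good_node t969
theorem f1486 : G 11 9 11 764843 := good_step (fun _ => f1484) f1485 (fun h => absurd h (by decide))
theorem f1487 : G 11 10 10 47802 := good_step (fun _ => f1470) f1480 (fun _ => f1486)
theorem f1488 : G 11 7 8 195803800 := good_node t970
theorem f1489 : G 11 7 9 195803801 := good_node t971
theorem f1490 : G 11 7 10 195803802 := good_node t972
theorem f1491 : G 11 8 9 12237737 := good_step (fun _ => f1488) f1489 (fun _ => f1490)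
theorem f1492 : G 11 7 9 195803817 := good_node t973
theorem f1493 : G 11 7 10 195803818 := good_node t974
theorem f1494 : G 11 7 11 195803819 := good_node t975
theorem f1495 : G 11 8 10 12237738 := good_step (fun _ => f1492) f1493 (fun _ => f1494)
theorem f1496 : G 11 8 11 12237739 := good_node t976
theorem f1497 : G 11 9 10 764858 := good_step (fun _ => f1491) f1495 (fun _ => f1496)
theorem f1498 : G 11 7 9 195804073 := good_node t977
theorem f1499 : G 11 7 10 195804074 := good_node t978
theorem f1500 : G 11 7 11 195804075 := good_node t979
theorem f1501 : G 11 8 10 12237754 := good_step (fun _ => f1498) f1499 (fun _ => f1500)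
theorem f1502 : G 11 8 11 12237755 := good_node t980
theorem f1503 : G 11 9 11 764859 := good_step (fun _ => f1501) f1502 (fun h => absurd h (by decide))
theorem f1504 : G 11 10 11 47803 := good_step (fun _ => f1497) f1503 (fun h => absurd h (by decide))
theorem f1505 : G 11 11 11 2987 := good_step (fun _ => f1487) f1504 (fun h => absurd h (by decide))
theorem f1506 : G 11 12 10 186 := good_step (fun _ => f1372) f1457 (fun _ => f1505)
theorem f1507 : G 11 6 5 3148449637 := good_node t981
theorem f1508 : G 11 6 6 3148449638 := good_node t982
theorem f1509 : G 11 6 7 3148449639 := good_node t983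
theorem f1510 : G 11 7 6 196778102 := good_step (fun _ => f1507) f1508 (fun _ => f1509)
theorem f1511 : G 11 7 7 196778103 := good_node t984
theorem f1512 : G 11 7 8 196778104 := good_node t985
theorem f1513 : G 11 8 7 12298631 := good_step (fun _ => f1510) f1511 (fun _ => f1512)
theorem f1514 : G 11 7 7 196778119 := good_node t986
theorem f1515 : G 11 7 8 196778120 := good_node t987
theorem f1516 : G 11 7 9 196778121 := good_node t988
theorem f1517 : G 11 8 8 12298632 := good_step (fun _ => f1514) f1515 (fun _ => f1516)
theorem f1518 : G 11 7 8 196778136 := good_node t989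
theorem f1519 : G 11 7 9 196778137 := good_node t990
theorem f1520 : G 11 7 10 196778138 := good_node t991
theorem f1521 : G 11 8 9 12298633 := good_step (fun _ => f1518) f1519 (fun _ => f1520)
theorem f1522 : G 11 9 8 768664 := good_step (fun _ => f1513) f1517 (fun _ => f1521)
theorem f1523 : G 11 7 7 196778375 := good_node t992
theorem f1524 : G 11 7 8 196778376 := good_node t993
theorem f1525 : G 11 7 9 196778377 := good_node t994
theorem f1526 : G 11 8 8 12298648 := good_step (fun _ => f1523) f1524 (fun _ => f1525)
theorem f1527 : G 11 7 8 196778392 := good_node t995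
theorem f1528 : G 11 7 9 196778393 := good_node t996
theorem f1529 : G 11 7 10 196778394 := good_node t997
theorem f1530 : G 11 8 9 12298649 := good_step (fun _ => f1527) f1528 (fun _ => f1529)
theorem f1531 : G 11 7 9 196778409 := good_node t998
theorem f1532 : G 11 7 10 196778410 := good_node t999
theorem f1533 : G 11 7 11 196778411 := good_node t1000
theorem f1534 : G 11 8 10 12298650 := good_step (fun _ => f1531) f1532 (fun _ => f1533)
theorem f1535 : G 11 9 9 768665 := good_step (fun _ => f1526) f1530 (fun _ => f1534)
theorem f1536 : G 11 7 8 196778648 := good_node t1001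
theorem f1537 : G 11 7 9 196778649 := good_node t1002
theorem f1538 : G 11 7 10 196778650 := good_node t1003
theorem f1539 : G 11 8 9 12298665 := good_step (fun _ => f1536) f1537 (fun _ => f1538)
theorem f1540 : G 11 7 9 196778665 := good_node t1004
theorem f1541 : G 11 7 10 196778666 := good_node t1005
theorem f1542 : G 11 7 11 196778667 := good_node t1006
theorem f1543 : G 11 8 10 12298666 := good_step (fun _ => f1540) f1541 (fun _ => f1542)
theorem f1544 : G 11 8 11 12298667 := good_node t1007
theorem f1545 : G 11 9 10 768666 := good_step (fun _ => f1539) f1543 (fun _ => f1544)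
theorem f1546 : G 11 10 9 48041 := good_step (fun _ => f1522) f1535 (fun _ => f1545)
theorem f1547 : G 11 7 7 196782471 := good_node t1008
theorem f1548 : G 11 7 8 196782472 := good_node t1009
theorem f1549 : G 11 7 9 196782473 := good_node t1010
theorem f1550 : G 11 8 8 12298904 := good_step (fun _ => f1547) f1548 (fun _ => f1549)
theorem f1551 : G 11 7 8 196782488 := good_node t1011
theorem f1552 : G 11 7 9 196782489 := good_node t1012
theorem f1553 : G 11 7 10 196782490 := good_node t1013
theorem f1554 : G 11 8 9 12298905 := good_step (fun _ => f1551) f1552 (fun _ => f1553)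
theorem f1555 : G 11 7 9 196782505 := good_node t1014
theorem f1556 : G 11 7 10 196782506 := good_node t1015
theorem f1557 : G 11 7 11 196782507 := good_node t1016
theorem f1558 : G 11 8 10 12298906 := good_step (fun _ => f1555) f1556 (fun _ => f1557)
theorem f1559 : G 11 9 9 768681 := good_step (fun _ => f1550) f1554 (fun _ => f1558)
theorem f1560 : G 11 7 8 196782744 := good_node t1017
theorem f1561 : G 11 7 9 196782745 := good_node t1018
theorem f1562 : G 11 7 10 196782746 := good_node t1019
theorem f1563 : G 11 8 9 12298921 := good_step (fun _ => f1560) f1561 (fun _ => f1562)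
theorem f1564 : G 11 7 9 196782761 := good_node t1020
theorem f1565 : G 11 7 10 196782762 := good_node t1021
theorem f1566 : G 11 7 11 196782763 := good_node t1022
theorem f1567 : G 11 8 10 12298922 := good_step (fun _ => f1564) f1565 (fun _ => f1566)
theorem f1568 : G 11 8 11 12298923 := good_node t1023
theorem f1569 : G 11 9 10 768682 := good_step (fun _ => f1563) f1567 (fun _ => f1568)
theorem f1570 : G 11 7 9 196783017 := good_node t1024
theorem f1571 : G 11 7 10 196783018 := good_node t1025
theorem f1572 : G 11 7 11 196783019 := good_node t1026
theorem f1573 : G 11 8 10 12298938 := good_step (fun _ => f1570) f1571 (fun _ => f1572)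
theorem f1574 : G 11 8 11 12298939 := good_node t1027
theorem f1575 : G 11 9 11 768683 := good_step (fun _ => f1573) f1574 (fun h => absurd h (by decide))
theorem f1576 : G 11 10 10 48042 := good_step (fun _ => f1559) f1569 (fun _ => f1575)
theorem f1577 : G 11 7 8 196786840 := good_node t1028
theorem f1578 : G 11 7 9 196786841 := good_node t1029
theorem f1579 : G 11 7 10 196786842 := good_node t1030
theorem f1580 : G 11 8 9 12299177 := good_step (fun _ => f1577) f1578 (fun _ => f1579)
theorem f1581 : G 11 7 9 196786857 := good_node t1031
theorem f1582 : G 11 7 10 196786858 := good_node t1032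
theorem f1583 : G 11 7 11 196786859 := good_node t1033
theorem f1584 : G 11 8 10 12299178 := good_step (fun _ => f1581) f1582 (fun _ => f1583)
theorem f1585 : G 11 8 11 12299179 := good_node t1034
theorem f1586 : G 11 9 10 768698 := good_step (fun _ => f1580) f1584 (fun _ => f1585)
theorem f1587 : G 11 7 9 196787113 := good_node t1035
theorem f1588 : G 11 7 10 196787114 := good_node t1036
theorem f1589 : G 11 7 11 196787115 := good_node t1037
theorem f1590 : G 11 8 10 12299194 := good_step (fun _ => f1587) f1588 (fun _ => f1589)
theorem f1591 : G 11 8 11 12299195 := good_node t1038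
theorem f1592 : G 11 9 11 768699 := good_step (fun _ => f1590) f1591 (fun h => absurd h (by decide))
theorem f1593 : G 11 10 11 48043 := good_step (fun _ => f1586) f1592 (fun h => absurd h (by decide))
theorem f1594 : G 11 11 10 3002 := good_step (fun _ => f1546) f1576 (fun _ => f1593)
theorem f1595 : G 11 7 7 196848007 := good_node t1039
theorem f1596 : G 11 7 8 196848008 := good_node t1040
theorem f1597 : G 11 7 9 196848009 := good_node t1041
theorem f1598 : G 11 8 8 12303000 := good_step (fun _ => f1595) f1596 (fun _ => f1597)
theorem f1599 : G 11 7 8 196848024 := good_node t1042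
theorem f1600 : G 11 7 9 196848025 := good_node t1043
theorem f1601 : G 11 7 10 196848026 := good_node t1044
theorem f1602 : G 11 8 9 12303001 := good_step (fun _ => f1599) f1600 (fun _ => f1601)
theorem f1603 : G 11 7 9 196848041 := good_node t1045
theorem f1604 : G 11 7 10 196848042 := good_node t1046
theorem f1605 : G 11 7 11 196848043 := good_node t1047
theorem f1606 : G 11 8 10 12303002 := good_step (fun _ => f1603) f1604 (fun _ => f1605)
theorem f1607 : G 11 9 9 768937 := good_step (fun _ => f1598) f1602 (fun _ => f1606)
theorem f1608 : G 11 7 8 196848280 := good_node t1048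
theorem f1609 : G 11 7 9 196848281 := good_node t1049
theorem f1610 : G 11 7 10 196848282 := good_node t1050
theorem f1611 : G 11 8 9 12303017 := good_step (fun _ => f1608) f1609 (fun _ => f1610)
theorem f1612 : G 11 7 9 196848297 := good_node t1051
theorem f1613 : G 11 7 10 196848298 := good_node t1052
theorem f1614 : G 11 7 11 196848299 := good_node t1053
theorem f1615 : G 11 8 10 12303018 := good_step (fun _ => f1612) f1613 (fun _ => f1614)
theorem f1616 : G 11 8 11 12303019 := good_node t1054
theorem f1617 : G 11 9 10 768938 := good_step (fun _ => f1611) f1615 (fun _ => f1616)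
theorem f1618 : G 11 7 9 196848553 := good_node t1055
theorem f1619 : G 11 7 10 196848554 := good_node t1056
theorem f1620 : G 11 7 11 196848555 := good_node t1057
theorem f1621 : G 11 8 10 12303034 := good_step (fun _ => f1618) f1619 (fun _ => f1620)
theorem f1622 : G 11 8 11 12303035 := good_node t1058
theorem f1623 : G 11 9 11 768939 := good_step (fun _ => f1621) f1622 (fun h => absurd h (by decide))
theorem f1624 : G 11 10 10 48058 := good_step (fun _ => f1607) f1617 (fun _ => f1623)
theorem f1625 : G 11 7 8 196852376 := good_node t1059
theorem f1626 : G 11 7 9 196852377 := good_node t1060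
theorem f1627 : G 11 7 10 196852378 := good_node t1061
theorem f1628 : G 11 8 9 12303273 := good_step (fun _ => f1625) f1626 (fun _ => f1627)
theorem f1629 : G 11 7 9 196852393 := good_node t1062
theorem f1630 : G 11 7 10 196852394 := good_node t1063
theorem f1631 : G 11 7 11 196852395 := good_node t1064
theorem f1632 : G 11 8 10 12303274 := good_step (fun _ => f1629) f1630 (fun _ => f1631)
theorem f1633 : G 11 8 11 12303275 := good_node t1065
theorem f1634 : G 11 9 10 768954 := good_step (fun _ => f1628) f1632 (fun _ => f1633)
theorem f1635 : G 11 7 9 196852649 := good_node t1066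
theorem f1636 : G 11 7 10 196852650 := good_node t1067
theorem f1637 : G 11 7 11 196852651 := good_node t1068
theorem f1638 : G 11 8 10 12303290 := good_step (fun _ => f1635) f1636 (fun _ => f1637)
theorem f1639 : G 11 8 11 12303291 := good_node t1069
theorem f1640 : G 11 9 11 768955 := good_step (fun _ => f1638) f1639 (fun h => absurd h (by decide))
theorem f1641 : G 11 10 11 48059 := good_step (fun _ => f1634) f1640 (fun h => absurd h (by decide))
theorem f1642 : G 11 11 11 3003 := good_step (fun _ => f1624) f1641 (fun h => absurd h (by decide))
theorem f1643 : G 11 12 11 187 := good_step (fun _ => f1594) f1642 (fun h => absurd h (by decide))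
theorem f1644 : G 11 13 11 11 := good_step (fun _ => f1506) f1643 (fun h => absurd h (by decide))
theorem f1645 : G 12 7 6 213555318 := good_node t1070
theorem f1646 : G 12 7 7 213555319 := good_node t1071
theorem f1647 : G 12 7 8 213555320 := good_node t1072
theorem f1648 : G 12 8 7 13347207 := good_step (fun _ => f1645) f1646 (fun _ => f1647)
theorem f1649 : G 12 7 7 213555335 := good_node t1073
theorem f1650 : G 12 7 8 213555336 := good_node t1074
theorem f1651 : G 12 7 9 213555337 := good_node t1075
theorem f1652 : G 12 8 8 13347208 := good_step (fun _ => f1649) f1650 (fun _ => f1651)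
theorem f1653 : G 12 7 8 213555352 := good_node t1076
theorem f1654 : G 12 7 9 213555353 := good_node t1077
theorem f1655 : G 12 7 10 213555354 := good_node t1078
theorem f1656 : G 12 8 9 13347209 := good_step (fun _ => f1653) f1654 (fun _ => f1655)
theorem f1657 : G 12 9 8 834200 := good_step (fun _ => f1648) f1652 (fun _ => f1656)
theorem f1658 : G 12 7 7 213555591 := good_node t1079
theorem f1659 : G 12 7 8 213555592 := good_node t1080
theorem f1660 : G 12 7 9 213555593 := good_node t1081
theorem f1661 : G 12 8 8 13347224 := good_step (fun _ => f1658) f1659 (fun _ => f1660)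
theorem f1662 : G 12 7 8 213555608 := good_node t1082
theorem f1663 : G 12 7 9 213555609 := good_node t1083
theorem f1664 : G 12 7 10 213555610 := good_node t1084
theorem f1665 : G 12 8 9 13347225 := good_step (fun _ => f1662) f1663 (fun _ => f1664)
theorem f1666 : G 12 7 9 213555625 := good_node t1085
theorem f1667 : G 12 7 10 213555626 := good_node t1086
theorem f1668 : G 12 7 11 213555627 := good_far (by decide)
theorem f1669 : G 12 8 10 13347226 := good_step (fun _ => f1666) f1667 (fun _ => f1668)
theorem f1670 : G 12 9 9 834201 := good_step (fun _ => f1661) f1665 (fun _ => f1669)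
theorem f1671 : G 12 7 8 213555864 := good_node t1087
theorem f1672 : G 12 7 9 213555865 := good_node t1088
theorem f1673 : G 12 7 10 213555866 := good_node t1089
theorem f1674 : G 12 8 9 13347241 := good_step (fun _ => f1671) f1672 (fun _ => f1673)
theorem f1675 : G 12 7 9 213555881 := good_node t1090
theorem f1676 : G 12 7 10 213555882 := good_node t1091
theorem f1677 : G 12 7 11 213555883 := good_far (by decide)
theorem f1678 : G 12 8 10 13347242 := good_step (fun _ => f1675) f1676 (fun _ => f1677)
theorem f1679 : G 12 7 10 213555898 := good_node t1092
theorem f1680 : G 12 7 11 213555899 := good_far (by decide)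
theorem f1681 : G 12 7 12 213555900 := good_far (by decide)
theorem f1682 : G 12 8 11 13347243 := good_step (fun _ => f1679) f1680 (fun _ => f1681)
theorem f1683 : G 12 9 10 834202 := good_step (fun _ => f1674) f1678 (fun _ => f1682)
theorem f1684 : G 12 10 9 52137 := good_step (fun _ => f1657) f1670 (fun _ => f1683)
theorem f1685 : G 12 7 7 213559687 := good_node t1093
theorem f1686 : G 12 7 8 213559688 := good_node t1094
theorem f1687 : G 12 7 9 213559689 := good_node t1095
theorem f1688 : G 12 8 8 13347480 := good_step (fun _ => f1685) f1686 (fun _ => f1687)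
theorem f1689 : G 12 7 8 213559704 := good_node t1096
theorem f1690 : G 12 7 9 213559705 := good_node t1097
theorem f1691 : G 12 7 10 213559706 := good_node t1098
theorem f1692 : G 12 8 9 13347481 := good_step (fun _ => f1689) f1690 (fun _ => f1691)
theorem f1693 : G 12 7 9 213559721 := good_node t1099
theorem f1694 : G 12 7 10 213559722 := good_node t1100
theorem f1695 : G 12 7 11 213559723 := good_far (by decide)
theorem f1696 : G 12 8 10 13347482 := good_step (fun _ => f1693) f1694 (fun _ => f1695)
theorem f1697 : G 12 9 9 834217 := good_step (fun _ => f1688) f1692 (fun _ => f1696)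
theorem f1698 : G 12 7 8 213559960 := good_node t1101
theorem f1699 : G 12 7 9 213559961 := good_node t1102
theorem f1700 : G 12 7 10 213559962 := good_node t1103
theorem f1701 : G 12 8 9 13347497 := good_step (fun _ => f1698) f1699 (fun _ => f1700)
theorem f1702 : G 12 7 9 213559977 := good_node t1104
theorem f1703 : G 12 7 10 213559978 := good_node t1105
theorem f1704 : G 12 7 11 213559979 := good_far (by decide)
theorem f1705 : G 12 8 10 13347498 := good_step (fun _ => f1702) f1703 (fun _ => f1704)
theorem f1706 : G 12 7 10 213559994 := good_node t1106
theorem f1707 : G 12 7 11 213559995 := good_far (by decide)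
theorem f1708 : G 12 7 12 213559996 := good_far (by decide)
theorem f1709 : G 12 8 11 13347499 := good_step (fun _ => f1706) f1707 (fun _ => f1708)
theorem f1710 : G 12 9 10 834218 := good_step (fun _ => f1701) f1705 (fun _ => f1709)
theorem f1711 : G 12 7 9 213560233 := good_node t1107
theorem f1712 : G 12 7 10 213560234 := good_node t1108
theorem f1713 : G 12 7 11 213560235 := good_far (by decide)
theorem f1714 : G 12 8 10 13347514 := good_step (fun _ => f1711) f1712 (fun _ => f1713)
theorem f1715 : G 12 7 10 213560250 := good_node t1109
theorem f1716 : G 12 7 11 213560251 := good_far (by decide)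
theorem f1717 : G 12 7 12 213560252 := good_far (by decide)
theorem f1718 : G 12 8 11 13347515 := good_step (fun _ => f1715) f1716 (fun _ => f1717)
theorem f1719 : G 12 8 12 13347516 := good_far (by decide)
theorem f1720 : G 12 9 11 834219 := good_step (fun _ => f1714) f1718 (fun _ => f1719)
theorem f1721 : G 12 10 10 52138 := good_step (fun _ => f1697) f1710 (fun _ => f1720)
theorem f1722 : G 12 7 8 213564056 := good_node t1110
theorem f1723 : G 12 7 9 213564057 := good_node t1111
theorem f1724 : G 12 7 10 213564058 := good_node t1112
theorem f1725 : G 12 8 9 13347753 := good_step (fun _ => f1722) f1723 (fun _ => f1724)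
theorem f1726 : G 12 7 9 213564073 := good_node t1113
theorem f1727 : G 12 7 10 213564074 := good_node t1114
theorem f1728 : G 12 7 11 213564075 := good_far (by decide)
theorem f1729 : G 12 8 10 13347754 := good_step (fun _ => f1726) f1727 (fun _ => f1728)
theorem f1730 : G 12 7 10 213564090 := good_node t1115
theorem f1731 : G 12 7 11 213564091 := good_far (by decide)
theorem f1732 : G 12 7 12 213564092 := good_far (by decide)
theorem f1733 : G 12 8 11 13347755 := good_step (fun _ => f1730) f1731 (fun _ => f1732)
theorem f1734 : G 12 9 10 834234 := good_step (fun _ => f1725) f1729 (fun _ => f1733)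
theorem f1735 : G 12 7 9 213564329 := good_node t1116
theorem f1736 : G 12 7 10 213564330 := good_node t1117
theorem f1737 : G 12 7 11 213564331 := good_far (by decide)
theorem f1738 : G 12 8 10 13347770 := good_step (fun _ => f1735) f1736 (fun _ => f1737)
theorem f1739 : G 12 7 10 213564346 := good_node t1118
theorem f1740 : G 12 7 11 213564347 := good_far (by decide)
theorem f1741 : G 12 7 12 213564348 := good_far (by decide)
theorem f1742 : G 12 8 11 13347771 := good_step (fun _ => f1739) f1740 (fun _ => f1741)
theorem f1743 : G 12 8 12 13347772 := good_far (by decide)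
theorem f1744 : G 12 9 11 834235 := good_step (fun _ => f1738) f1742 (fun _ => f1743)
theorem f1745 : G 12 7 10 213564602 := good_node t1119
theorem f1746 : G 12 7 11 213564603 := good_far (by decide)
theorem f1747 : G 12 7 12 213564604 := good_far (by decide)
theorem f1748 : G 12 8 11 13347787 := good_step (fun _ => f1745) f1746 (fun _ => f1747)
theorem f1749 : G 12 8 12 13347788 := good_far (by decide)
theorem f1750 : G 12 9 12 834236 := good_step (fun _ => f1748) f1749 (fun h => absurd h (by decide))
theorem f1751 : G 12 10 11 52139 := good_step (fun _ => f1734) f1744 (fun _ => f1750)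
theorem f1752 : G 12 11 10 3258 := good_step (fun _ => f1684) f1721 (fun _ => f1751)
theorem f1753 : G 12 7 7 213625223 := good_node t1120
theorem f1754 : G 12 7 8 213625224 := good_node t1121
theorem f1755 : G 12 7 9 213625225 := good_node t1122
theorem f1756 : G 12 8 8 13351576 := good_step (fun _ => f1753) f1754 (fun _ => f1755)
theorem f1757 : G 12 7 8 213625240 := good_node t1123
theorem f1758 : G 12 7 9 213625241 := good_node t1124
theorem f1759 : G 12 7 10 213625242 := good_node t1125
theorem f1760 : G 12 8 9 13351577 := good_step (fun _ => f1757) f1758 (fun _ => f1759)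
theorem f1761 : G 12 7 9 213625257 := good_node t1126
theorem f1762 : G 12 7 10 213625258 := good_node t1127
theorem f1763 : G 12 7 11 213625259 := good_far (by decide)
theorem f1764 : G 12 8 10 13351578 := good_step (fun _ => f1761) f1762 (fun _ => f1763)
theorem f1765 : G 12 9 9 834473 := good_step (fun _ => f1756) f1760 (fun _ => f1764)
theorem f1766 : G 12 7 8 213625496 := good_node t1128
theorem f1767 : G 12 7 9 213625497 := good_node t1129
theorem f1768 : G 12 7 10 213625498 := good_node t1130
theorem f1769 : G 12 8 9 13351593 := good_step (fun _ => f1766) f1767 (fun _ => f1768)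
theorem f1770 : G 12 7 9 213625513 := good_node t1131
theorem f1771 : G 12 7 10 213625514 := good_node t1132
theorem f1772 : G 12 7 11 213625515 := good_far (by decide)
theorem f1773 : G 12 8 10 13351594 := good_step (fun _ => f1770) f1771 (fun _ => f1772)
theorem f1774 : G 12 7 10 213625530 := good_node t1133
theorem f1775 : G 12 7 11 213625531 := good_far (by decide)
theorem f1776 : G 12 7 12 213625532 := good_far (by decide)
theorem f1777 : G 12 8 11 13351595 := good_step (fun _ => f1774) f1775 (fun _ => f1776)
theorem f1778 : G 12 9 10 834474 := good_step (fun _ => f1769) f1773 (fun _ => f1777)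
theorem f1779 : G 12 7 9 213625769 := good_node t1134
theorem f1780 : G 12 7 10 213625770 := good_node t1135
theorem f1781 : G 12 7 11 213625771 := good_far (by decide)
theorem f1782 : G 12 8 10 13351610 := good_step (fun _ => f1779) f1780 (fun _ => f1781)
theorem f1783 : G 12 7 10 213625786 := good_node t1136
theorem f1784 : G 12 7 11 213625787 := good_far (by decide)
theorem f1785 : G 12 7 12 213625788 := good_far (by decide)
theorem f1786 : G 12 8 11 13351611 := good_step (fun _ => f1783) f1784 (fun _ => f1785)
theorem f1787 : G 12 8 12 13351612 := good_far (by decide)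
theorem f1788 : G 12 9 11 834475 := good_step (fun _ => f1782) f1786 (fun _ => f1787)
theorem f1789 : G 12 10 10 52154 := good_step (fun _ => f1765) f1778 (fun _ => f1788)
theorem f1790 : G 12 7 8 213629592 := good_node t1137
theorem f1791 : G 12 7 9 213629593 := good_node t1138
theorem f1792 : G 12 7 10 213629594 := good_node t1139
theorem f1793 : G 12 8 9 13351849 := good_step (fun _ => f1790) f1791 (fun _ => f1792)
theorem f1794 : G 12 7 9 213629609 := good_node t1140
theorem f1795 : G 12 7 10 213629610 := good_node t1141
theorem f1796 : G 12 7 11 213629611 := good_far (by decide)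
theorem f1797 : G 12 8 10 13351850 := good_step (fun _ => f1794) f1795 (fun _ => f1796)
theorem f1798 : G 12 7 10 213629626 := good_node t1142
theorem f1799 : G 12 7 11 213629627 := good_far (by decide)
theorem f1800 : G 12 7 12 213629628 := good_far (by decide)
theorem f1801 : G 12 8 11 13351851 := good_step (fun _ => f1798) f1799 (fun _ => f1800)
theorem f1802 : G 12 9 10 834490 := good_step (fun _ => f1793) f1797 (fun _ => f1801)
theorem f1803 : G 12 7 9 213629865 := good_node t1143
theorem f1804 : G 12 7 10 213629866 := good_node t1144
theorem f1805 : G 12 7 11 213629867 := good_far (by decide)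
theorem f1806 : G 12 8 10 13351866 := good_step (fun _ => f1803) f1804 (fun _ => f1805)
theorem f1807 : G 12 7 10 213629882 := good_node t1145
theorem f1808 : G 12 7 11 213629883 := good_far (by decide)
theorem f1809 : G 12 7 12 213629884 := good_far (by decide)
theorem f1810 : G 12 8 11 13351867 := good_step (fun _ => f1807) f1808 (fun _ => f1809)
theorem f1811 : G 12 8 12 13351868 := good_far (by decide)
theorem f1812 : G 12 9 11 834491 := good_step (fun _ => f1806) f1810 (fun _ => f1811)
theorem f1813 : G 12 7 10 213630138 := good_node t1146
theorem f1814 : G 12 7 11 213630139 := good_far (by decide)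
theorem f1815 : G 12 7 12 213630140 := good_far (by decide)
theorem f1816 : G 12 8 11 13351883 := good_step (fun _ => f1813) f1814 (fun _ => f1815)
theorem f1817 : G 12 8 12 13351884 := good_far (by decide)
theorem f1818 : G 12 9 12 834492 := good_step (fun _ => f1816) f1817 (fun h => absurd h (by decide))
theorem f1819 : G 12 10 11 52155 := good_step (fun _ => f1802) f1812 (fun _ => f1818)
theorem f1820 : G 12 7 9 213633961 := good_node t1147
theorem f1821 : G 12 7 10 213633962 := good_node t1148
theorem f1822 : G 12 7 11 213633963 := good_far (by decide)
theorem f1823 : G 12 8 10 13352122 := good_step (fun _ => f1820) f1821 (fun _ => f1822)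
theorem f1824 : G 12 7 10 213633978 := good_node t1149
theorem f1825 : G 12 7 11 213633979 := good_far (by decide)
theorem f1826 : G 12 7 12 213633980 := good_far (by decide)
theorem f1827 : G 12 8 11 13352123 := good_step (fun _ => f1824) f1825 (fun _ => f1826)
theorem f1828 : G 12 8 12 13352124 := good_far (by decide)
theorem f1829 : G 12 9 11 834507 := good_step (fun _ => f1823) f1827 (fun _ => f1828)
theorem f1830 : G 12 7 10 213634234 := good_node t1150
theorem f1831 : G 12 7 11 213634235 := good_far (by decide)
theorem f1832 : G 12 7 12 213634236 := good_far (by decide)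
theorem f1833 : G 12 8 11 13352139 := good_step (fun _ => f1830) f1831 (fun _ => f1832)
theorem f1834 : G 12 8 12 13352140 := good_far (by decide)
theorem f1835 : G 12 9 12 834508 := good_step (fun _ => f1833) f1834 (fun h => absurd h (by decide))
theorem f1836 : G 12 10 12 52156 := good_step (fun _ => f1829) f1835 (fun h => absurd h (by decide))
theorem f1837 : G 12 11 11 3259 := good_step (fun _ => f1789) f1819 (fun _ => f1836)
theorem f1838 : G 12 7 8 213695128 := good_node t1151
theorem f1839 : G 12 7 9 213695129 := good_node t1152
theorem f1840 : G 12 7 10 213695130 := good_node t1153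
theorem f1841 : G 12 8 9 13355945 := good_step (fun _ => f1838) f1839 (fun _ => f1840)
theorem f1842 : G 12 7 9 213695145 := good_node t1154
theorem f1843 : G 12 7 10 213695146 := good_node t1155
theorem f1844 : G 12 7 11 213695147 := good_far (by decide)
theorem f1845 : G 12 8 10 13355946 := good_step (fun _ => f1842) f1843 (fun _ => f1844)
theorem f1846 : G 12 7 10 213695162 := good_node t1156
theorem f1847 : G 12 7 11 213695163 := good_far (by decide)
theorem f1848 : G 12 7 12 213695164 := good_far (by decide)
theorem f1849 : G 12 8 11 13355947 := good_step (fun _ => f1846) f1847 (fun _ => f1848)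
theorem f1850 : G 12 9 10 834746 := good_step (fun _ => f1841) f1845 (fun _ => f1849)
theorem f1851 : G 12 7 9 213695401 := good_node t1157
theorem f1852 : G 12 7 10 213695402 := good_node t1158
theorem f1853 : G 12 7 11 213695403 := good_far (by decide)
theorem f1854 : G 12 8 10 13355962 := good_step (fun _ => f1851) f1852 (fun _ => f1853)
theorem f1855 : G 12 7 10 213695418 := good_node t1159
theorem f1856 : G 12 7 11 213695419 := good_far (by decide)
theorem f1857 : G 12 7 12 213695420 := good_far (by decide)
theorem f1858 : G 12 8 11 13355963 := good_step (fun _ => f1855) f1856 (fun _ => f1857)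
theorem f1859 : G 12 8 12 13355964 := good_far (by decide)
theorem f1860 : G 12 9 11 834747 := good_step (fun _ => f1854) f1858 (fun _ => f1859)
theorem f1861 : G 12 7 10 213695674 := good_node t1160
theorem f1862 : G 12 7 11 213695675 := good_far (by decide)
theorem f1863 : G 12 7 12 213695676 := good_far (by decide)
theorem f1864 : G 12 8 11 13355979 := good_step (fun _ => f1861) f1862 (fun _ => f1863)
theorem f1865 : G 12 8 12 13355980 := good_far (by decide)
theorem f1866 : G 12 9 12 834748 := good_step (fun _ => f1864) f1865 (fun h => absurd h (by decide))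
theorem f1867 : G 12 10 11 52171 := good_step (fun _ => f1850) f1860 (fun _ => f1866)
theorem f1868 : G 12 7 9 213699497 := good_node t1161
theorem f1869 : G 12 7 10 213699498 := good_node t1162
theorem f1870 : G 12 7 11 213699499 := good_far (by decide)
theorem f1871 : G 12 8 10 13356218 := good_step (fun _ => f1868) f1869 (fun _ => f1870)
theorem f1872 : G 12 7 10 213699514 := good_node t1163
theorem f1873 : G 12 7 11 213699515 := good_far (by decide)
theorem f1874 : G 12 7 12 213699516 := good_far (by decide)
theorem f1875 : G 12 8 11 13356219 := good_step (fun _ => f1872) f1873 (fun _ => f1874)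
theorem f1876 : G 12 8 12 13356220 := good_far (by decide)
theorem f1877 : G 12 9 11 834763 := good_step (fun _ => f1871) f1875 (fun _ => f1876)
theorem f1878 : G 12 7 10 213699770 := good_node t1164
theorem f1879 : G 12 7 11 213699771 := good_far (by decide)
theorem f1880 : G 12 7 12 213699772 := good_far (by decide)
theorem f1881 : G 12 8 11 13356235 := good_step (fun _ => f1878) f1879 (fun _ => f1880)
theorem f1882 : G 12 8 12 13356236 := good_far (by decide)
theorem f1883 : G 12 9 12 834764 := good_step (fun _ => f1881) f1882 (fun h => absurd h (by decide))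
theorem f1884 : G 12 10 12 52172 := good_step (fun _ => f1877) f1883 (fun h => absurd h (by decide))
theorem f1885 : G 12 11 12 3260 := good_step (fun _ => f1867) f1884 (fun h => absurd h (by decide))
theorem f1886 : G 12 12 11 203 := good_step (fun _ => f1752) f1837 (fun _ => f1885)
theorem f1887 : G 12 7 7 214673799 := good_node t1165
theorem f1888 : G 12 7 8 214673800 := good_node t1166
theorem f1889 : G 12 7 9 214673801 := good_node t1167
theorem f1890 : G 12 8 8 13417112 := good_step (fun _ => f1887) f1888 (fun _ => f1889)
theorem f1891 : G 12 7 8 214673816 := good_node t1168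
theorem f1892 : G 12 7 9 214673817 := good_node t1169
theorem f1893 : G 12 7 10 214673818 := good_node t1170
theorem f1894 : G 12 8 9 13417113 := good_step (fun _ => f1891) f1892 (fun _ => f1893)
theorem f1895 : G 12 7 9 214673833 := good_node t1171
theorem f1896 : G 12 7 10 214673834 := good_node t1172
theorem f1897 : G 12 7 11 214673835 := good_far (by decide)
theorem f1898 : G 12 8 10 13417114 := good_step (fun _ => f1895) f1896 (fun _ => f1897)
theorem f1899 : G 12 9 9 838569 := good_step (fun _ => f1890) f1894 (fun _ => f1898)
theorem f1900 : G 12 7 8 214674072 := good_node t1173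
theorem f1901 : G 12 7 9 214674073 := good_node t1174
theorem f1902 : G 12 7 10 214674074 := good_node t1175
theorem f1903 : G 12 8 9 13417129 := good_step (fun _ => f1900) f1901 (fun _ => f1902)
theorem f1904 : G 12 7 9 214674089 := good_node t1176
theorem f1905 : G 12 7 10 214674090 := good_node t1177
theorem f1906 : G 12 7 11 214674091 := good_far (by decide)
theorem f1907 : G 12 8 10 13417130 := good_step (fun _ => f1904) f1905 (fun _ => f1906)
theorem f1908 : G 12 7 10 214674106 := good_node t1178
theorem f1909 : G 12 7 11 214674107 := good_far (by decide)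
theorem f1910 : G 12 7 12 214674108 := good_far (by decide)
theorem f1911 : G 12 8 11 13417131 := good_step (fun _ => f1908) f1909 (fun _ => f1910)
theorem f1912 : G 12 9 10 838570 := good_step (fun _ => f1903) f1907 (fun _ => f1911)
theorem f1913 : G 12 7 9 214674345 := good_node t1179
theorem f1914 : G 12 7 10 214674346 := good_node t1180
theorem f1915 : G 12 7 11 214674347 := good_far (by decide)
theorem f1916 : G 12 8 10 13417146 := good_step (fun _ => f1913) f1914 (fun _ => f1915)
theorem f1917 : G 12 7 10 214674362 := good_node t1181
theorem f1918 : G 12 7 11 214674363 := good_far (by decide)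
theorem f1919 : G 12 7 12 214674364 := good_far (by decide)
theorem f1920 : G 12 8 11 13417147 := good_step (fun _ => f1917) f1918 (fun _ => f1919)
theorem f1921 : G 12 8 12 13417148 := good_far (by decide)
theorem f1922 : G 12 9 11 838571 := good_step (fun _ => f1916) f1920 (fun _ => f1921)
theorem f1923 : G 12 10 10 52410 := good_step (fun _ => f1899) f1912 (fun _ => f1922)
theorem f1924 : G 12 7 8 214678168 := good_node t1182
theorem f1925 : G 12 7 9 214678169 := good_node t1183
theorem f1926 : G 12 7 10 214678170 := good_node t1184
theorem f1927 : G 12 8 9 13417385 := good_step (fun _ => f1924) f1925 (fun _ => f1926)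
theorem f1928 : G 12 7 9 214678185 := good_node t1185
theorem f1929 : G 12 7 10 214678186 := good_node t1186
theorem f1930 : G 12 7 11 214678187 := good_far (by decide)
theorem f1931 : G 12 8 10 13417386 := good_step (fun _ => f1928) f1929 (fun _ => f1930)
theorem f1932 : G 12 7 10 214678202 := good_node t1187
theorem f1933 : G 12 7 11 214678203 := good_far (by decide)
theorem f1934 : G 12 7 12 214678204 := good_far (by decide)
theorem f1935 : G 12 8 11 13417387 := good_step (fun _ => f1932) f1933 (fun _ => f1934)
theorem f1936 : G 12 9 10 838586 := good_step (fun _ => f1927) f1931 (fun _ => f1935)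
theorem f1937 : G 12 7 9 214678441 := good_node t1188
theorem f1938 : G 12 7 10 214678442 := good_node t1189
theorem f1939 : G 12 7 11 214678443 := good_far (by decide)
theorem f1940 : G 12 8 10 13417402 := good_step (fun _ => f1937) f1938 (fun _ => f1939)
theorem f1941 : G 12 7 10 214678458 := good_node t1190
theorem f1942 : G 12 7 11 214678459 := good_far (by decide)
theorem f1943 : G 12 7 12 214678460 := good_far (by decide)
theorem f1944 : G 12 8 11 13417403 := good_step (fun _ => f1941) f1942 (fun _ => f1943)
theorem f1945 : G 12 8 12 13417404 := good_far (by decide)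
theorem f1946 : G 12 9 11 838587 := good_step (fun _ => f1940) f1944 (fun _ => f1945)
theorem f1947 : G 12 7 10 214678714 := good_node t1191
theorem f1948 : G 12 7 11 214678715 := good_far (by decide)
theorem f1949 : G 12 7 12 214678716 := good_far (by decide)
theorem f1950 : G 12 8 11 13417419 := good_step (fun _ => f1947) f1948 (fun _ => f1949)
theorem f1951 : G 12 8 12 13417420 := good_far (by decide)
theorem f1952 : G 12 9 12 838588 := good_step (fun _ => f1950) f1951 (fun h => absurd h (by decide))
theorem f1953 : G 12 10 11 52411 := good_step (fun _ => f1936) f1946 (fun _ => f1952)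
theorem f1954 : G 12 7 9 214682537 := good_node t1192
theorem f1955 : G 12 7 10 214682538 := good_node t1193
theorem f1956 : G 12 7 11 214682539 := good_far (by decide)
theorem f1957 : G 12 8 10 13417658 := good_step (fun _ => f1954) f1955 (fun _ => f1956)
theorem f1958 : G 12 7 10 214682554 := good_node t1194
theorem f1959 : G 12 7 11 214682555 := good_far (by decide)
theorem f1960 : G 12 7 12 214682556 := good_far (by decide)
theorem f1961 : G 12 8 11 13417659 := good_step (fun _ => f1958) f1959 (fun _ => f1960)
theorem f1962 : G 12 8 12 13417660 := good_far (by decide)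
theorem f1963 : G 12 9 11 838603 := good_step (fun _ => f1957) f1961 (fun _ => f1962)
theorem f1964 : G 12 7 10 214682810 := good_node t1195
theorem f1965 : G 12 7 11 214682811 := good_far (by decide)
theorem f1966 : G 12 7 12 214682812 := good_far (by decide)
theorem f1967 : G 12 8 11 13417675 := good_step (fun _ => f1964) f1965 (fun _ => f1966)
theorem f1968 : G 12 8 12 13417676 := good_far (by decide)
theorem f1969 : G 12 9 12 838604 := good_step (fun _ => f1967) f1968 (fun h => absurd h (by decide))
theorem f1970 : G 12 10 12 52412 := good_step (fun _ => f1963) f1969 (fun h => absurd h (by decide))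
theorem f1971 : G 12 11 11 3275 := good_step (fun _ => f1923) f1953 (fun _ => f1970)
theorem f1972 : G 12 7 8 214743704 := good_node t1196
theorem f1973 : G 12 7 9 214743705 := good_node t1197
theorem f1974 : G 12 7 10 214743706 := good_node t1198
theorem f1975 : G 12 8 9 13421481 := good_step (fun _ => f1972) f1973 (fun _ => f1974)
theorem f1976 : G 12 7 9 214743721 := good_node t1199
theorem f1977 : G 12 7 10 214743722 := good_node t1200
theorem f1978 : G 12 7 11 214743723 := good_far (by decide)
theorem f1979 : G 12 8 10 13421482 := good_step (fun _ => f1976) f1977 (fun _ => f1978)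
theorem f1980 : G 12 7 10 214743738 := good_node t1201
theorem f1981 : G 12 7 11 214743739 := good_far (by decide)
theorem f1982 : G 12 7 12 214743740 := good_far (by decide)
theorem f1983 : G 12 8 11 13421483 := good_step (fun _ => f1980) f1981 (fun _ => f1982)
theorem f1984 : G 12 9 10 838842 := good_step (fun _ => f1975) f1979 (fun _ => f1983)
theorem f1985 : G 12 7 9 214743977 := good_node t1202
theorem f1986 : G 12 7 10 214743978 := good_node t1203
theorem f1987 : G 12 7 11 214743979 := good_far (by decide)
theorem f1988 : G 12 8 10 13421498 := good_step (fun _ => f1985) f1986 (fun _ => f1987)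
theorem f1989 : G 12 7 10 214743994 := good_node t1204
theorem f1990 : G 12 7 11 214743995 := good_far (by decide)
theorem f1991 : G 12 7 12 214743996 := good_far (by decide)
theorem f1992 : G 12 8 11 13421499 := good_step (fun _ => f1989) f1990 (fun _ => f1991)
theorem f1993 : G 12 8 12 13421500 := good_far (by decide)
theorem f1994 : G 12 9 11 838843 := good_step (fun _ => f1988) f1992 (fun _ => f1993)
theorem f1995 : G 12 7 10 214744250 := good_node t1205
theorem f1996 : G 12 7 11 214744251 := good_far (by decide)
theorem f1997 : G 12 7 12 214744252 := good_far (by decide)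
theorem f1998 : G 12 8 11 13421515 := good_step (fun _ => f1995) f1996 (fun _ => f1997)
theorem f1999 : G 12 8 12 13421516 := good_far (by decide)
theorem f2000 : G 12 9 12 838844 := good_step (fun _ => f1998) f1999 (fun h => absurd h (by decide))
theorem f2001 : G 12 10 11 52427 := good_step (fun _ => f1984) f1994 (fun _ => f2000)
theorem f2002 : G 12 7 9 214748073 := good_node t1206
theorem f2003 : G 12 7 10 214748074 := good_node t1207
theorem f2004 : G 12 7 11 214748075 := good_far (by decide)
theorem f2005 : G 12 8 10 13421754 := good_step (fun _ => f2002) f2003 (fun _ => f2004)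
theorem f2006 : G 12 7 10 214748090 := good_node t1208
theorem f2007 : G 12 7 11 214748091 := good_far (by decide)
theorem f2008 : G 12 7 12 214748092 := good_far (by decide)
theorem f2009 : G 12 8 11 13421755 := good_step (fun _ => f2006) f2007 (fun _ => f2008)
theorem f2010 : G 12 8 12 13421756 := good_far (by decide)
theorem f2011 : G 12 9 11 838859 := good_step (fun _ => f2005) f2009 (fun _ => f2010)
theorem f2012 : G 12 7 10 214748346 := good_node t1209
theorem f2013 : G 12 7 11 214748347 := good_far (by decide)
theorem f2014 : G 12 7 12 214748348 := good_far (by decide)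
theorem f2015 : G 12 8 11 13421771 := good_step (fun _ => f2012) f2013 (fun _ => f2014)
theorem f2016 : G 12 8 12 13421772 := good_far (by decide)
theorem f2017 : G 12 9 12 838860 := good_step (fun _ => f2015) f2016 (fun h => absurd h (by decide))
theorem f2018 : G 12 10 12 52428 := good_step (fun _ => f2011) f2017 (fun h => absurd h (by decide))
theorem f2019 : G 12 11 12 3276 := good_step (fun _ => f2001) f2018 (fun h => absurd h (by decide))
theorem f2020 : G 12 12 12 204 := good_step (fun _ => f1971) f2019 (fun h => absurd h (by decide))
theorem f2021 : G 12 13 12 12 := good_step (fun _ => f1886) f2020 (fun h => absurd h (by decide))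
theorem f2022 : G 13 7 7 231451015 := good_node t1210
theorem f2023 : G 13 7 8 231451016 := good_node t1211
theorem f2024 : G 13 7 9 231451017 := good_node t1212
theorem f2025 : G 13 8 8 14465688 := good_step (fun _ => f2022) f2023 (fun _ => f2024)
theorem f2026 : G 13 7 8 231451032 := good_node t1213
theorem f2027 : G 13 7 9 231451033 := good_node t1214
theorem f2028 : G 13 7 10 231451034 := good_far (by decide)
theorem f2029 : G 13 8 9 14465689 := good_step (fun _ => f2026) f2027 (fun _ => f2028)
theorem f2030 : G 13 7 9 231451049 := good_node t1215
theorem f2031 : G 13 7 10 231451050 := good_far (by decide)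
theorem f2032 : G 13 7 11 231451051 := good_far (by decide)
theorem f2033 : G 13 8 10 14465690 := good_step (fun _ => f2030) f2031 (fun _ => f2032)
theorem f2034 : G 13 9 9 904105 := good_step (fun _ => f2025) f2029 (fun _ => f2033)
theorem f2035 : G 13 7 8 231451288 := good_node t1216
theorem f2036 : G 13 7 9 231451289 := good_node t1217
theorem f2037 : G 13 7 10 231451290 := good_far (by decide)
theorem f2038 : G 13 8 9 14465705 := good_step (fun _ => f2035) f2036 (fun _ => f2037)
theorem f2039 : G 13 7 9 231451305 := good_node t1218
theorem f2040 : G 13 7 10 231451306 := good_far (by decide)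
theorem f2041 : G 13 7 11 231451307 := good_far (by decide)
theorem f2042 : G 13 8 10 14465706 := good_step (fun _ => f2039) f2040 (fun _ => f2041)
theorem f2043 : G 13 8 11 14465707 := good_far (by decide)
theorem f2044 : G 13 9 10 904106 := good_step (fun _ => f2038) f2042 (fun _ => f2043)
theorem f2045 : G 13 7 9 231451561 := good_node t1219
theorem f2046 : G 13 7 10 231451562 := good_far (by decide)
theorem f2047 : G 13 7 11 231451563 := good_far (by decide)
theorem f2048 : G 13 8 10 14465722 := good_step (fun _ => f2045) f2046 (fun _ => f2047)
theorem f2049 : G 13 8 11 14465723 := good_far (by decide)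
theorem f2050 : G 13 8 12 14465724 := good_far (by decide)
theorem f2051 : G 13 9 11 904107 := good_step (fun _ => f2048) f2049 (fun _ => f2050)
theorem f2052 : G 13 10 10 56506 := good_step (fun _ => f2034) f2044 (fun _ => f2051)
theorem f2053 : G 13 7 8 231455384 := good_node t1220
theorem f2054 : G 13 7 9 231455385 := good_node t1221
theorem f2055 : G 13 7 10 231455386 := good_far (by decide)
theorem f2056 : G 13 8 9 14465961 := good_step (fun _ => f2053) f2054 (fun _ => f2055)
theorem f2057 : G 13 7 9 231455401 := good_node t1222
theorem f2058 : G 13 7 10 231455402 := good_far (by decide)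
theorem f2059 : G 13 7 11 231455403 := good_far (by decide)
theorem f2060 : G 13 8 10 14465962 := good_step (fun _ => f2057) f2058 (fun _ => f2059)
theorem f2061 : G 13 8 11 14465963 := good_far (by decide)
theorem f2062 : G 13 9 10 904122 := good_step (fun _ => f2056) f2060 (fun _ => f2061)
theorem f2063 : G 13 7 9 231455657 := good_node t1223
theorem f2064 : G 13 7 10 231455658 := good_far (by decide)
theorem f2065 : G 13 7 11 231455659 := good_far (by decide)
theorem f2066 : G 13 8 10 14465978 := good_step (fun _ => f2063) f2064 (fun _ => f2065)
theorem f2067 : G 13 8 11 14465979 := good_far (by decide)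
theorem f2068 : G 13 8 12 14465980 := good_far (by decide)
theorem f2069 : G 13 9 11 904123 := good_step (fun _ => f2066) f2067 (fun _ => f2068)
theorem f2070 : G 13 9 12 904124 := good_far (by decide)
theorem f2071 : G 13 10 11 56507 := good_step (fun _ => f2062) f2069 (fun _ => f2070)
theorem f2072 : G 13 7 9 231459753 := good_node t1224
theorem f2073 : G 13 7 10 231459754 := good_far (by decide)
theorem f2074 : G 13 7 11 231459755 := good_far (by decide)
theorem f2075 : G 13 8 10 14466234 := good_step (fun _ => f2072) f2073 (fun _ => f2074)
theorem f2076 : G 13 8 11 14466235 := good_far (by decide)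
theorem f2077 : G 13 8 12 14466236 := good_far (by decide)
theorem f2078 : G 13 9 11 904139 := good_step (fun _ => f2075) f2076 (fun _ => f2077)
theorem f2079 : G 13 9 12 904140 := good_far (by decide)
theorem f2080 : G 13 9 13 904141 := good_far (by decide)
theorem f2081 : G 13 10 12 56508 := good_step (fun _ => f2078) f2079 (fun _ => f2080)
theorem f2082 : G 13 11 11 3531 := good_step (fun _ => f2052) f2071 (fun _ => f2081)
theorem f2083 : G 13 7 8 231520920 := good_node t1225
theorem f2084 : G 13 7 9 231520921 := good_node t1226
theorem f2085 : G 13 7 10 231520922 := good_far (by decide)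
theorem f2086 : G 13 8 9 14470057 := good_step (fun _ => f2083) f2084 (fun _ => f2085)
theorem f2087 : G 13 7 9 231520937 := good_node t1227
theorem f2088 : G 13 7 10 231520938 := good_far (by decide)
theorem f2089 : G 13 7 11 231520939 := good_far (by decide)
theorem f2090 : G 13 8 10 14470058 := good_step (fun _ => f2087) f2088 (fun _ => f2089)
theorem f2091 : G 13 8 11 14470059 := good_far (by decide)
theorem f2092 : G 13 9 10 904378 := good_step (fun _ => f2086) f2090 (fun _ => f2091)
theorem f2093 : G 13 7 9 231521193 := good_node t1228
theorem f2094 : G 13 7 10 231521194 := good_far (by decide)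
theorem f2095 : G 13 7 11 231521195 := good_far (by decide)
theorem f2096 : G 13 8 10 14470074 := good_step (fun _ => f2093) f2094 (fun _ => f2095)
theorem f2097 : G 13 8 11 14470075 := good_far (by decide)
theorem f2098 : G 13 8 12 14470076 := good_far (by decide)
theorem f2099 : G 13 9 11 904379 := good_step (fun _ => f2096) f2097 (fun _ => f2098)
theorem f2100 : G 13 9 12 904380 := good_far (by decide)
theorem f2101 : G 13 10 11 56523 := good_step (fun _ => f2092) f2099 (fun _ => f2100)
theorem f2102 : G 13 7 9 231525289 := good_node t1229
theorem f2103 : G 13 7 10 231525290 := good_far (by decide)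
theorem f2104 : G 13 7 11 231525291 := good_far (by decide)
theorem f2105 : G 13 8 10 14470330 := good_step (fun _ => f2102) f2103 (fun _ => f2104)
theorem f2106 : G 13 8 11 14470331 := good_far (by decide)
theorem f2107 : G 13 8 12 14470332 := good_far (by decide)
theorem f2108 : G 13 9 11 904395 := good_step (fun _ => f2105) f2106 (fun _ => f2107)
theorem f2109 : G 13 9 12 904396 := good_far (by decide)
theorem f2110 : G 13 9 13 904397 := good_far (by decide)
theorem f2111 : G 13 10 12 56524 := good_step (fun _ => f2108) f2109 (fun _ => f2110)
theorem f2112 : G 13 10 13 56525 := good_far (by decide)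
theorem f2113 : G 13 11 12 3532 := good_step (fun _ => f2101) f2111 (fun _ => f2112)
theorem f2114 : G 13 7 9 231590825 := good_node t1230
theorem f2115 : G 13 7 10 231590826 := good_far (by decide)
theorem f2116 : G 13 7 11 231590827 := good_far (by decide)
theorem f2117 : G 13 8 10 14474426 := good_step (fun _ => f2114) f2115 (fun _ => f2116)
theorem f2118 : G 13 8 11 14474427 := good_far (by decide)
theorem f2119 : G 13 8 12 14474428 := good_far (by decide)
theorem f2120 : G 13 9 11 904651 := good_step (fun _ => f2117) f2118 (fun _ => f2119)
theorem f2121 : G 13 9 12 904652 := good_far (by decide)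
theorem f2122 : G 13 9 13 904653 := good_far (by decide)
theorem f2123 : G 13 10 12 56540 := good_step (fun _ => f2120) f2121 (fun _ => f2122)
theorem f2124 : G 13 10 13 56541 := good_far (by decide)
theorem f2125 : G 13 11 13 3533 := good_step (fun _ => f2123) f2124 (fun h => absurd h (by decide))
theorem f2126 : G 13 12 12 220 := good_step (fun _ => f2082) f2113 (fun _ => f2125)
theorem f2127 : G 13 7 8 232569496 := good_node t1231
theorem f2128 : G 13 7 9 232569497 := good_node t1232
theorem f2129 : G 13 7 10 232569498 := good_far (by decide)
theorem f2130 : G 13 8 9 14535593 := good_step (fun _ => f2127) f2128 (fun _ => f2129)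
theorem f2131 : G 13 7 9 232569513 := good_node t1233
theorem f2132 : G 13 7 10 232569514 := good_far (by decide)
theorem f2133 : G 13 7 11 232569515 := good_far (by decide)
theorem f2134 : G 13 8 10 14535594 := good_step (fun _ => f2131) f2132 (fun _ => f2133)
theorem f2135 : G 13 8 11 14535595 := good_far (by decide)
theorem f2136 : G 13 9 10 908474 := good_step (fun _ => f2130) f2134 (fun _ => f2135)
theorem f2137 : G 13 7 9 232569769 := good_node t1234
theorem f2138 : G 13 7 10 232569770 := good_far (by decide)
theorem f2139 : G 13 7 11 232569771 := good_far (by decide)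
theorem f2140 : G 13 8 10 14535610 := good_step (fun _ => f2137) f2138 (fun _ => f2139)
theorem f2141 : G 13 8 11 14535611 := good_far (by decide)
theorem f2142 : G 13 8 12 14535612 := good_far (by decide)
theorem f2143 : G 13 9 11 908475 := good_step (fun _ => f2140) f2141 (fun _ => f2142)
theorem f2144 : G 13 9 12 908476 := good_far (by decide)
theorem f2145 : G 13 10 11 56779 := good_step (fun _ => f2136) f2143 (fun _ => f2144)
theorem f2146 : G 13 7 9 232573865 := good_node t1235
theorem f2147 : G 13 7 10 232573866 := good_far (by decide)
theorem f2148 : G 13 7 11 232573867 := good_far (by decide)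
theorem f2149 : G 13 8 10 14535866 := good_step (fun _ => f2146) f2147 (fun _ => f2148)
theorem f2150 : G 13 8 11 14535867 := good_far (by decide)
theorem f2151 : G 13 8 12 14535868 := good_far (by decide)
theorem f2152 : G 13 9 11 908491 := good_step (fun _ => f2149) f2150 (fun _ => f2151)
theorem f2153 : G 13 9 12 908492 := good_far (by decide)
theorem f2154 : G 13 9 13 908493 := good_far (by decide)
theorem f2155 : G 13 10 12 56780 := good_step (fun _ => f2152) f2153 (fun _ => f2154)
theorem f2156 : G 13 10 13 56781 := good_far (by decide)
theorem f2157 : G 13 11 12 3548 := good_step (fun _ => f2145) f2155 (fun _ => f2156)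
theorem f2158 : G 13 7 9 232639401 := good_node t1236
theorem f2159 : G 13 7 10 232639402 := good_far (by decide)
theorem f2160 : G 13 7 11 232639403 := good_far (by decide)
theorem f2161 : G 13 8 10 14539962 := good_step (fun _ => f2158) f2159 (fun _ => f2160)
theorem f2162 : G 13 8 11 14539963 := good_far (by decide)
theorem f2163 : G 13 8 12 14539964 := good_far (by decide)
theorem f2164 : G 13 9 11 908747 := good_step (fun _ => f2161) f2162 (fun _ => f2163)
theorem f2165 : G 13 9 12 908748 := good_far (by decide)
theorem f2166 : G 13 9 13 908749 := good_far (by decide)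
theorem f2167 : G 13 10 12 56796 := good_step (fun _ => f2164) f2165 (fun _ => f2166)
theorem f2168 : G 13 10 13 56797 := good_far (by decide)
theorem f2169 : G 13 11 13 3549 := good_step (fun _ => f2167) f2168 (fun h => absurd h (by decide))
theorem f2170 : G 13 12 13 221 := good_step (fun _ => f2157) f2169 (fun h => absurd h (by decide))
theorem f2171 : G 13 13 13 13 := good_step (fun _ => f2126) f2170 (fun h => absurd h (by decide))
theorem f2172 : G 14 7 8 249346712 := good_node t1237
theorem f2173 : G 14 7 9 249346713 := good_far (by decide)
theorem f2174 : G 14 7 10 249346714 := good_far (by decide)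
theorem f2175 : G 14 8 9 15584169 := good_step (fun _ => f2172) f2173 (fun _ => f2174)
theorem f2176 : G 14 8 10 15584170 := good_far (by decide)
theorem f2177 : G 14 8 11 15584171 := good_far (by decide)
theorem f2178 : G 14 9 10 974010 := good_step (fun _ => f2175) f2176 (fun _ => f2177)
theorem f2179 : G 14 9 11 974011 := good_far (by decide)
theorem f2180 : G 14 9 12 974012 := good_far (by decide)
theorem f2181 : G 14 10 11 60875 := good_step (fun _ => f2178) f2179 (fun _ => f2180)
theorem f2182 : G 14 10 12 60876 := good_far (by decide)
theorem f2183 : G 14 10 13 60877 := good_far (by decide)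
theorem f2184 : G 14 11 12 3804 := good_step (fun _ => f2181) f2182 (fun _ => f2183)
theorem f2185 : G 14 11 13 3805 := good_far (by decide)
theorem f2186 : G 14 11 14 3806 := good_far (by decide)
theorem f2187 : G 14 12 13 237 := good_step (fun _ => f2184) f2185 (fun _ => f2186)
theorem f2188 : G 14 12 14 238 := good_far (by decide)
theorem f2189 : G 14 13 14 14 := good_step (fun _ => f2187) f2188 (fun h => absurd h (by decide))

theorem good : ∀ M, 14 ≤ 2 * M → M ≤ 14 → G M 13 M M := by
  intro M h1 h2
  have h3 : 7 ≤ M := by omega
  interval_cases M
  · exact f0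
  · exact f168
  · exact f800
  · exact f1264
  · exact f1644
  · exact f2021
  · exact f2171
  · exact f2189

end Pool.Agent.TH502.FA.N14
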