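import Mathlib
import Pool.Agent.TH502.FA.GeomN
import Pool.Agent.TH502.FA.Leaf
import Pool.Agent.TH502.FA.N14.Tree
import Pool.Agent.TH502.FA.N14.Flux

/-! # The area bound for `N = 14` -/

open Real

namespace Pool.Agent.TH502.FA.N14

open Pool.Agent.H115R3.Filling Pool.Agent.W664.Fill Pool.Agent.TH502.FA

theorem ok1 : Ok 98 14 29 96 52 16 where
  hbt := by norm_num
  hcK := by norm_num
  h1 := by norm_num
  h2 := by norm_num

theorem ok2 : Ok2 98 14 29 96 36 16 23 where
  hs := by norm_num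
  hWb := by norm_num
  hgK := by norm_num
  h3 := by norm_num
  h4 := by norm_num

theorem bound (a : ℕ → ℕ) (ha : ∀ i, a (i + 14) + a i = 14)
    (hadj : ∀ i, a i ≤ a (i + 1) + 1 ∧ a (i + 1) ≤ a i + 1) (X Y : ℕ → ℝ)
    (hX : ∀ i, X (i + 14) = -X i) (hY : ∀ i, Y (i + 14) = -Y i) (B : ℝ)
    (hB : ∀ i, X i ^ 2 + Y i ^ 2 ≤ B) : 2 * Fsum P a X Y 14 ≤ B * (400000 : ℕ) :=
  finite_bound' (fun y L => leafN tbl 16 98 14 29 96 52 16 36 23 400000 y L = true) P 14
    (by norm_num) (by norm_num) rfl 400000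
    (fun a L haN h X Y B hB => leaf_sound P ok1 (by norm_num) ok2 (by norm_num) (by norm_num)
      tab a L haN h X Y B hB)
    good sym a ha hadj X Y hX hY B hB

/-- The area bound. -/
theorem area_ge {M : Type} [MetricSpace M] (S : OrientedSurface M) (hS : S.NoShortcut) :
    (189763336 : ℝ) / (4 * 14 ^ 2 * 400000) * π ^ 2 ≤ S.area := by
  have h := area_ge_cert' S hS P 14 7 (by norm_num) (by norm_num) 400000 (by norm_num)
    bound 189763336 flux
  exact_mod_cast h

end Pool.Agent.TH502.FA.N14
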